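import Pool.Agent.Lib.MP_b07157_agU.Defs

/-!
# The pole side at a singular point of the tangent cone of a Lê–Yomdin surface: definitions

Zeta functions of `z^D (F(x, y) + z^e)` and the form `x^(a-1) z^(b-1) dx dy dz`.
Notation: `e s₁ = (D + e) s₀ + b`.
-/

noncomputable section

namespace MPb07157

open MvPolynomial

namespace YP

open PC SU

/-- One variable `z` with the exponent `e`. -/
abbrev eo (e : ℕ) : Fin 1 → ℕ := fun _ => e

/-- The zeta function of `z^D (F(x, y) + z^e)` and `x^(a-1) z^(b-1) dx dy dz`, restricted to the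
arcs with `e ord z > A ord x`; level `N = K (m + 1)`. -/
def ZY (F : P2) (e D b a A K : ℕ) : PowerSeries Mot :=
  PowerSeries.mk fun m => ∑ k ∈ Finset.Icc 1 (K * (m + 1)), ∑ j ∈ Finset.Icc 1 (K * (m + 1)),
    if A * k < e * j ∧ D * j ≤ m then P1aux.Lp ((a - 1) * k + (b - 1) * j) *
      muJ F (eo e) (K * (m + 1)) (m - D * j) (Start 2 1 (K * (m + 1)) ∩ Xo (K * (m + 1)) k)
        (Ug (eo e) (K * (m + 1)) (e * j)) else 0

/-- The numerical hypotheses. -/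
structure Par (e D b : ℕ) (s₀ s₁ : ℚ) : Prop where
  he : 0 < e
  hD : 0 < D
  hb : 0 < b
  hs : (e : ℚ) * s₁ = (D + e) * s₀ + b
  h1 : s₀ ≠ -1
  hbD : (b : ℚ) ≠ -s₀ * D

/-- `∑ f L^{-νk-bj} T^{Dj+Ek}`, over the pairs `k, j ≥ 1` with `c k j`. -/
def cs (c : ℕ → ℕ → Prop) [∀ k j, Decidable (c k j)] (f : Mot) (ν b E D : ℕ) :
    PowerSeries Mot :=
  PowerSeries.mk fun m => ∑ k ∈ Finset.Icc 1 m, ∑ j ∈ Finset.Icc 1 m,
    if c k j ∧ D * j + E * k = m then f * P1aux.Lp (ν * k + b * j) else 0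

/-- `∑ f L^{-νk-bj-(m-Dj-Ek)} T^m`, over the `k, j ≥ 1` with `c k j` and `m > Dj+Ek`. -/
def cs2 (c : ℕ → ℕ → Prop) [∀ k j, Decidable (c k j)] (f : Mot) (ν b E D : ℕ) :
    PowerSeries Mot :=
  PowerSeries.mk fun m => ∑ k ∈ Finset.Icc 1 m, ∑ j ∈ Finset.Icc 1 m,
    if c k j ∧ D * j + E * k < m then
      f * P1aux.Lp (ν * k + b * j + (m - (D * j + E * k))) else 0

/-- The polynomial `z^D (g(x, y) + z^e)`. -/
def zg (g : MvPolynomial (Fin 2) ℂ) (e D : ℕ) : MvPolynomial (Fin (2 + 1)) ℂ :=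
  X (Fin.natAdd 2 0) ^ D * susp g (eo e)

/-- The weights of `x^(a-1) z^(b-1) dx dy dz`. -/
def cwz (a b : ℕ) : Fin (2 + 1) → ℕ := Fin.append ![a - 1, 0] (fun _ : Fin 1 => b - 1)

end YP

end MPb07157
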