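import Pool.Agent.Lib.MP_b07157_agYP.Defs
import Pool.Agent.Lib.MP_b07157_agU.L1

/-!
# Coordinate changes
-/

noncomputable section

namespace MPb07157

open MvPolynomial

namespace YP

open PC SU SU.L1aux

theorem ZY_shY (F : P2) (e D b a A K : ℕ) {φ : PowerSeries ℂ}
    (hφ : PowerSeries.constantCoeff φ = 0) :
    ZY (MvPowerSeries.subst (shY φ) F) e D b a A K = ZY F e D b a A K := by
  ext m
  unfold ZY
  rw [PowerSeries.coeff_mk, PowerSeries.coeff_mk]
  rcases Nat.eq_zero_or_pos K with hK | hK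
  · subst hK
    simp
  refine Finset.sum_congr rfl fun k _ => Finset.sum_congr rfl fun j _ => ?_
  have hm : m < K * (m + 1) := by
    calc m < 1 * (m + 1) := by omega
      _ ≤ K * (m + 1) := Nat.mul_le_mul_right _ hK
  obtain ⟨M, hM⟩ : ∃ M, K * (m + 1) = M + 1 := ⟨K * (m + 1) - 1, by omega⟩
  rw [hM] at hm ⊢
  rw [muJ_shear F (eo e) (lt_of_le_of_lt (Nat.sub_le m (D * j)) hm) (i := 0) (j := 1) (by decide)
    hφ (θ := shY φ) rfl rfl (isConstr_Xo (M + 1) k) (fun γ γ' h => mem_Xo_congr h)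
    (isConstr_Ug (eo e) (M + 1) (e * j))]

theorem ZY_shX (F : P2) {e : ℕ} (he : 0 < e) (D b : ℕ) {K : ℕ} (hK : 1 ≤ K) {ψ : PowerSeries ℂ}
    (hψ : PowerSeries.constantCoeff ψ = 0) :
    ZY (MvPowerSeries.subst (shX ψ) F) e D b 1 0 K = ZY F e D b 1 0 K := by
  ext m
  unfold ZY
  rw [PowerSeries.coeff_mk, PowerSeries.coeff_mk]
  have hm : m < K * (m + 1) := by
    calc m < 1 * (m + 1) := by omega
      _ ≤ K * (m + 1) := Nat.mul_le_mul_right _ hK
  have h0 : ∀ G : P2, ∑ k ∈ Finset.Icc 1 (K * (m + 1)), ∑ j ∈ Finset.Icc 1 (K * (m + 1)),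
      (if 0 * k < e * j ∧ D * j ≤ m then P1aux.Lp ((1 - 1) * k + (b - 1) * j) *
        muJ G (eo e) (K * (m + 1)) (m - D * j) (Start 2 1 (K * (m + 1)) ∩ Xo (K * (m + 1)) k)
          (Ug (eo e) (K * (m + 1)) (e * j)) else 0) =
      ∑ j ∈ Finset.Icc 1 (K * (m + 1)), (if 0 < e * j ∧ D * j ≤ m then P1aux.Lp ((b - 1) * j) *
        muJ G (eo e) (K * (m + 1)) (m - D * j) (Start 2 1 (K * (m + 1)))
          (Ug (eo e) (K * (m + 1)) (e * j)) else 0) := by
    intro G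
    rw [Finset.sum_comm]
    refine Finset.sum_congr rfl fun j _ => ?_
    by_cases h : 0 < e * j ∧ D * j ≤ m
    · rw [if_pos h, ← sum_muJ G (eo e) (lt_of_le_of_lt (Nat.sub_le m (D * j)) hm)
        (isConstr_Ug (eo e) _ (e * j)), Finset.mul_sum]
      refine Finset.sum_congr rfl fun k _ => ?_
      rw [if_pos ⟨by rw [zero_mul]; exact h.1, h.2⟩, Nat.sub_self, zero_mul, zero_add]
    · rw [if_neg h]
      refine Finset.sum_eq_zero fun k _ => if_neg fun h2 => h ⟨?_, h2.2⟩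
      rw [zero_mul] at h2
      exact h2.1
  rw [h0, h0]
  refine Finset.sum_congr rfl fun j _ => ?_
  by_cases h : 0 < e * j ∧ D * j ≤ m
  · rw [if_pos h, if_pos h]
    obtain ⟨M, hM⟩ : ∃ M, K * (m + 1) = M + 1 := ⟨K * (m + 1) - 1, by omega⟩
    rw [hM] at hm ⊢
    have h1 := muJ_shear F (eo e) (lt_of_le_of_lt (Nat.sub_le m (D * j)) hm) (i := 1) (j := 0)
      (by decide) hψ (θ := shX ψ) rfl rfl
      (Y := Set.univ) IsConstr.univ (fun γ γ' _ => by simp) (isConstr_Ug (eo e) (M + 1) (e * j))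
    rw [Set.inter_univ] at h1
    rw [h1]
  · rw [if_neg h, if_neg h]

end YP

end MPb07157
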