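import Pool.Agent.Lib.MP_b07157_agYP.Key
import Pool.Agent.Lib.MP_b07157_agYP.Sh
import Pool.Agent.Lib.MP_b07157_agU.S2

/-!
# The recursion for s₁ ≤ -1 and s₁ ≥ 0
-/

noncomputable section

namespace MPb07157

open MvPolynomial

namespace YP

open PC SU S2aux

variable {e D b : ℕ} {s₀ s₁ : ℚ}

/-- **Later stages.** -/
theorem later_out (hP : Par e D b s₀ s₁)
    (hout : s₁ ≤ -1 ∨ 0 ≤ s₁) {K : ℕ} (hK : 1 ≤ K) (hKs : -s₀ < K)
    (M : ℕ) : ∀ (F : P2) (a A : ℕ), 1 ≤ a → YOrd F A M → 1 ≤ M → a < A →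
      ZY F e D b a A K ∈ regularAt s₀ := by
  induction M using Nat.strong_induction_on with
  | _ M IH =>
  intro F a A₀ ha hY hM haA
  have hA₀ : 1 ≤ A₀ := by omega
  have hne₀ : (a : ℚ) ≠ -s₁ * A₀ := out_ne hout (by omega) haA
  rcases Nat.eq_or_lt_of_le hM with hM1 | hM1
  · exact ZY_simple hA₀ (by rw [hM1]; exact hY) hP ha hK hne₀
  obtain ⟨φ, hφ0, hφ, -⟩ := exists_shY F
  rw [← ZY_shY F e D b a A₀ K hφ0]
  have hY' := hY.shY hφ0
  set G := MvPowerSeries.subst (shY φ) F with hG
  have hG0 : G ≠ 0 := by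
    intro h
    apply hY'.2.2
    rw [h]
    exact map_zero _
  -- the edges
  have hedge : ∀ (p q A B : ℕ) (lam : ℂ) (R : Finset ℂ) (μ : ℂ → ℕ),
      IsEdge G p q A B lam R μ → a * p + q < edgeN p q A B R μ ∧ ∀ c ∈ R, μ c < M := by
    intro p q A B lam R μ hE
    obtain ⟨hA, hB⟩ := hY'.edge_le hE
    have hS := Finset.sum_pos hE.hm hE.hR
    have hp := hE.hp
    have hq := hE.hq
    constructor
    · unfold edgeN
      have h1 : p * (a + 1) ≤ p * A := Nat.mul_le_mul_left p (by omega)
      have h2 : q * 1 ≤ q * (p * ∑ c ∈ R, μ c) :=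
        Nat.mul_le_mul_left q (Nat.mul_pos hp hS)
      have h3 : p * q * ∑ c ∈ R, μ c = q * (p * ∑ c ∈ R, μ c) := by ring
      rw [h3]
      rw [Nat.mul_add, mul_one, mul_comm p a] at h1
      omega
    · intro c hc
      by_contra hcon
      have hμS : μ c ≤ ∑ c ∈ R, μ c := Finset.single_le_sum (fun _ _ => Nat.zero_le _) hc
      have h2 : 1 * ∑ c ∈ R, μ c ≤ p * ∑ c ∈ R, μ c := Nat.mul_le_mul_right _ hE.hp
      have h3 : B = 0 := by omega
      have h4 : p = 1 := by
        by_contra hp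
        have : 2 * ∑ c ∈ R, μ c ≤ p * ∑ c ∈ R, μ c :=
          Nat.mul_le_mul_right _ (by have := hE.hp; omega)
        omega
      have h5 := not_bad_card hφ hE h4 h3
      obtain ⟨c', hc', hne'⟩ := Finset.exists_mem_ne (show 1 < R.card by omega) c
      have h6 : μ c + μ c' ≤ ∑ c ∈ R, μ c := by
        rw [← Finset.add_sum_erase _ _ hc]
        exact Nat.add_le_add_left (Finset.single_le_sum (f := μ) (fun _ _ => Nat.zero_le _)
          (Finset.mem_erase.2 ⟨hne', hc'⟩)) _
      have := hE.hm c' hc'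
      omega
  -- the key theorem
  have key : ∀ H : P2, H ≠ 0 → YOrd H A₀ M →
      (∀ B, ExactPow H 1 B → 0 < B → (1 : ℚ) ≠ -s₁ * B) →
      (∀ (p q A B : ℕ) (lam : ℂ) (R : Finset ℂ) (μ : ℂ → ℕ),
        IsEdge H p q A B lam R μ → a * p + q < edgeN p q A B R μ ∧ ∀ c ∈ R, μ c < M) →
      ZY H e D b a A₀ K ∈ regularAt s₀ := by
    intro H hH0 hYH hy hEd
    refine ZY_mem_of_edges hH0 hP ha (Or.inr ⟨hA₀, yOrd_exactPow hYH⟩)
      (fun v hv => yOrd_supp hYH hM hv) hK hKs ?_ hy ?_ ?_
    · intro A hA _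
      rw [hYH.exactPow hA.1 hA.2]
      exact hne₀
    · intro p q A B lam R μ hE
      have hp := hE.hp
      have hq := hE.hq
      exact out_ne hout (by omega) (hEd p q A B lam R μ hE).1
    · intro p q A B lam R μ hE c hc α β hab
      have hq := hE.hq
      obtain ⟨k1, k2⟩ := hEd p q A B lam R μ hE
      exact IH (μ c) (k2 c hc) _ _ _ (by omega) (YOrd.sub hE hc hab) (hE.hm c hc) k1
  by_cases hb : s₁ = -1 ∧ ExactPow G 1 1
  · obtain ⟨A', hB⟩ := exists_bot (i := 0) (j := 1) (by decide) hb.2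
    have hL : A' < A' + 1 := by omega
    have hL0 : PowerSeries.constantCoeff ((PowerSeries.X : PowerSeries ℂ) ^ (A' + 1)) = 0 :=
      constantCoeff_X_pow (by omega)
    rw [← ZY_shY G e D b a A₀ K hL0]
    have hAA : A₀ ≤ A' := by
      have := (yOrd_supp hY' hM hB.ne).1
      rwa [mo_i (by decide)] at this
    refine key _ ?_ (hY'.shY hL0) ?_ ?_
    · rw [← n1sh_zero]
      exact sh_ne_zero hL0 hG0
    · intro B hB1 hB0
      rw [← n1sh_zero] at hB1
      exact absurd hB1 (hB.not_exact (by decide) hL hB0)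
    · intro p q A B lam R μ hE
      rw [← n1sh_zero] at hE
      rcases edge_shY hG0 hB hL hE with h | ⟨rfl, rfl, rfl, rfl, hS⟩
      · exact hedge _ _ _ _ _ _ _ h
      · constructor
        · unfold edgeN
          rw [hS]
          omega
        · intro c hc
          have hμS : μ c ≤ ∑ c ∈ R, μ c := Finset.single_le_sum (fun _ _ => Nat.zero_le _) hc
          omega
  · refine key G hG0 hY' ?_ hedge
    intro B hB hB0 h
    rcases Nat.eq_or_lt_of_le (show 1 ≤ B from hB0) with h2 | h2
    · rw [← h2] at hB h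
      rw [Nat.cast_one, mul_one] at h
      exact hb ⟨by linarith, hB⟩
    · have h3 := out_ne hout one_pos h2
      rw [Nat.cast_one] at h3
      exact h3 h

namespace R2aux

/-- The first stage, after the normalization. -/
theorem first_key {H : P2} (hH0 : H ≠ 0) (h0 : MvPowerSeries.constantCoeff H = 0)
    (hP : Par e D b s₀ s₁)
    (hout : s₁ ≤ -1 ∨ 0 ≤ s₁) {K : ℕ} (hK : 1 ≤ K) (hKs : -s₀ < K)
    (hxy : s₁ = -1 → ∀ i, ¬ ExactPow H i 1)
    (hEd : ∀ (p q A B : ℕ) (lam : ℂ) (R : Finset ℂ) (μ : ℂ → ℕ), IsEdge H p q A B lam R μ →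
      p + q < edgeN p q A B R μ ∨
        (s₁ = -1 ∧ p + q ≠ edgeN p q A B R μ ∧ ∀ c ∈ R, μ c = 1)) :
    ZY H e D b 1 0 K ∈ regularAt s₀ := by
  have hax : ∀ (i : Fin 2) (B : ℕ), ExactPow H i B → 0 < B → (1 : ℚ) ≠ -s₁ * B := by
    intro i B hB hB0 h
    rcases Nat.eq_or_lt_of_le (show 1 ≤ B from hB0) with h2 | h2
    · rw [← h2] at hB h
      rw [Nat.cast_one, mul_one] at h
      exact hxy (by linarith) i hB
    · have h3 := out_ne hout one_pos h2
      rw [Nat.cast_one] at h3
      exact h3 h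
  have hne : ∀ (p q A B : ℕ) (lam : ℂ) (R : Finset ℂ) (μ : ℂ → ℕ), IsEdge H p q A B lam R μ →
      ((1 * p + q : ℕ) : ℚ) ≠ -s₁ * (edgeN p q A B R μ : ℕ) := by
    intro p q A B lam R μ hE
    have hp := hE.hp
    rw [one_mul]
    rcases hEd p q A B lam R μ hE with h | ⟨h, h2, -⟩
    · exact out_ne hout (by omega) h
    · rw [h, neg_neg, one_mul]
      exact_mod_cast h2
  refine ZY_mem_of_edges hH0 hP le_rfl (Or.inl ⟨rfl, rfl⟩) ?_ hK hKs ?_ (hax 1) hne ?_
  · intro v hv
    refine ⟨Nat.zero_le _, ?_⟩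
    rintro rfl
    apply hv
    have h2 : ex 0 0 = 0 := by simp [ex]
    rw [h2, MvPowerSeries.coeff_zero_eq_constantCoeff_apply]
    exact h0
  · intro A hA hA0
    rw [Nat.cast_one]
    exact hax 0 A hA hA0
  · intro p q A B lam R μ hE c hc α β hab
    have hp := hE.hp
    have hq := hE.hq
    have hN : 1 ≤ edgeN p q A B R μ := by
      unfold edgeN
      have := Nat.mul_pos (Nat.mul_pos hE.hp hE.hq) (Finset.sum_pos hE.hm hE.hR)
      omega
    rcases hEd p q A B lam R μ hE with h | ⟨-, -, h2⟩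
    · exact later_out hP hout hK hKs (μ c) _ _ _ (by omega) (YOrd.sub hE hc hab) (hE.hm c hc)
        (by rw [one_mul]; exact h)
    · have h3 := YOrd.sub hE hc hab
      rw [h2 c hc] at h3
      exact ZY_simple hN h3 hP (by omega) hK (hne p q A B lam R μ hE)

end R2aux

open R2aux

/-- **First stage.** -/
theorem first_out {f : P2} (hf : f ≠ 0) (h0 : MvPowerSeries.constantCoeff f = 0)
    (hnode : ¬ IsNode f) (hP : Par e D b s₀ s₁)
    (hout : s₁ ≤ -1 ∨ 0 ≤ s₁) {K : ℕ} (hK : 1 ≤ K) (hKs : -s₀ < K) :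
    ZY f e D b 1 0 K ∈ regularAt s₀ := by
  obtain ⟨φ₁, ψ₁, φ, ψ, h1', h2', h3', h4', hBY, hBX, hB2⟩ := exists_first hf
  rw [← ZY_shY f e D b 1 0 K h1', ← ZY_shX _ hP.he D b hK h2', ← ZY_shY _ e D b 1 0 K h3',
    ← ZY_shX _ hP.he D b hK h4']
  have hst := (((((isStage_id f).shY h1').shX h2').shY h3').shX h4')
  set G := (MvPowerSeries.subst (shX ψ) (MvPowerSeries.subst (shY φ)
      (MvPowerSeries.subst (shX ψ₁) (MvPowerSeries.subst (shY φ₁) f)))) with hG
  have hG0 : G ≠ 0 := hst.ne_zero hf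
  have hGc : MvPowerSeries.constantCoeff G = 0 := by
    rw [hst.hF, PC.constantCoeff_subst' hst.h0, h0]
  have hlt' : ∀ (p q A B : ℕ) (lam : ℂ) (R : Finset ℂ) (μ : ℂ → ℕ),
      IsEdge G p q A B lam R μ → p + q < edgeN p q A B R μ := by
    intro p q A B lam R μ hE
    have hS := Finset.sum_pos hE.hm hE.hR
    have hcS : R.card ≤ ∑ c ∈ R, μ c := by
      rw [Finset.card_eq_sum_ones]
      exact Finset.sum_le_sum fun c hc => hE.hm c hc
    have hp := hE.hp
    have hq := hE.hq
    have hc1 := Finset.card_pos.2 hE.hR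
    have e1 : p = 1 ∧ B = 0 → 2 ≤ R.card := fun h => not_bad_card hBY hE h.1 h.2
    have e2 : q = 1 ∧ A = 0 → 2 ≤ R.card := fun h => not_badX_card hBX hE h.1 h.2
    have e3 : p = 1 ∧ q = 1 ∧ A = 0 ∧ B = 0 → 3 ≤ R.card := by
      rintro ⟨rfl, rfl, rfl, rfl⟩
      exact not_bad2_card hBY hB2 hE
    have e4 : ¬ (p = 2 ∧ q = 2) := by
      rintro ⟨rfl, rfl⟩
      have := hE.hpq
      norm_num at this
    unfold edgeN
    set S := ∑ c ∈ R, μ c with hSdef
    clear_value S
    have := node_ineq hp hq hS (fun h => (e1 h).trans hcS) (fun h => (e2 h).trans hcS)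
      (fun h => (e3 h).trans hcS) e4
    rwa [one_mul] at this
  clear_value G
  by_cases hs : s₁ = -1
  swap
  · exact first_key hG0 hGc hP hout hK hKs (fun h => absurd h hs) fun p q A B lam R μ hE =>
      Or.inl (hlt' p q A B lam R μ hE)
  have hnode' : MvPowerSeries.X 0 ∣ G → MvPowerSeries.X 1 ∣ G →
      MvPowerSeries.coeff (ex 1 1) G = 0 := by
    intro k0 k1
    by_contra k2
    exact hnode (isNode_of hst k0 k1 k2)
  by_cases hbY : ExactPow G 1 1
  · obtain ⟨A', hB⟩ := exists_bot (i := 0) (j := 1) (by decide) hbY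
    set L := A' + 1 with hLdef
    have hL : A' < L := by omega
    clear_value L
    have hL0 : PowerSeries.constantCoeff ((PowerSeries.X : PowerSeries ℂ) ^ L) = 0 :=
      constantCoeff_X_pow (by omega)
    have hX1 : MvPowerSeries.X 1 ∣ G := by simpa using hbY.1
    have hA'1 : A' ≠ 1 := by
      rintro rfl
      have h11 := hB.ne
      rw [mo_eq_ex] at h11
      by_cases hX0 : MvPowerSeries.X 0 ∣ G
      · exact h11 (hnode' hX0 hX1)
      · refine no_vertexY hlt' hX0 hB.pos h11 ?_
        by_contra h01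
        have := hB.min _ h01 (by rw [VM.ex_one])
        rw [VM.ex_zero] at this
        omega
    rw [← ZY_shY G e D b 1 0 K hL0]
    set G₁ := MvPowerSeries.subst (shY (PowerSeries.X ^ L)) G with hG₁
    have hG₁' : G₁ = MvPowerSeries.subst (n1sh 0 (PowerSeries.X ^ L)) G := by
      rw [hG₁, n1sh_zero]
    have hG₁0 : G₁ ≠ 0 := by
      rw [hG₁']
      exact sh_ne_zero hL0 hG0
    have hG₁c : MvPowerSeries.constantCoeff G₁ = 0 := by
      rw [hG₁', PC.constantCoeff_subst' (n1sh_const hL0), hGc]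
    have hG₁Y : ∀ B, 0 < B → ¬ ExactPow G₁ 1 B := fun B hB0 => by
      rw [hG₁']
      exact hB.not_exact (by decide) hL hB0
    have hG₁E : ∀ (p q A B : ℕ) (lam : ℂ) (R : Finset ℂ) (μ : ℂ → ℕ),
        IsEdge G₁ p q A B lam R μ → p + q < edgeN p q A B R μ ∨
          (p + q = 1 + L ∧ edgeN p q A B R μ = A' + L ∧ ∀ c ∈ R, μ c = 1) := by
      intro p q A B lam R μ hE
      rw [hG₁'] at hE
      have hm := hE.hm
      rcases edge_shY hG0 hB hL hE with h | ⟨rfl, rfl, rfl, rfl, hS⟩
      · exact Or.inl (hlt' _ _ _ _ _ _ _ h)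
      · refine Or.inr ⟨rfl, ?_, fun c hc => ?_⟩
        · unfold edgeN
          rw [hS]
          ring
        · have hμS : μ c ≤ ∑ c ∈ R, μ c := Finset.single_le_sum (fun _ _ => Nat.zero_le _) hc
          have := hm c hc
          omega
    have hG₁min : ∀ u, MvPowerSeries.coeff u G₁ ≠ 0 → A' + L ≤ u 0 + L * u 1 := fun u hu => by
      rw [hG₁'] at hu
      exact (hB.min_sh (by decide) hL hu).1
    by_cases hbX : ExactPow G 0 1
    · -- both axes
      have hA'2 : 2 ≤ A' := by
        have h2 : A' ≠ 0 := by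
          rintro rfl
          apply hB.ne
          have h3 := hbX.1
          rw [MvPowerSeries.X_pow_dvd_iff] at h3
          exact h3 _ (by rw [mo_i (by decide)]; omega)
        omega
      have hbX₁ : ExactPow G₁ 0 1 := by
        rw [hG₁', exactPow_sh hL0]
        exact hbX
      obtain ⟨B', hB'⟩ := exists_bot (i := 1) (j := 0) (by decide) hbX₁
      have hB'2 : 2 ≤ B' := by
        have h2 := hG₁min _ hB'.ne
        rw [mo_j (by decide), mo_i (by decide)] at h2
        by_contra h3
        have h4 : L * B' ≤ L * 1 := Nat.mul_le_mul_left _ (by omega)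
        omega
      have hL' : B' < B' + 1 := by omega
      have hL0' : PowerSeries.constantCoeff ((PowerSeries.X : PowerSeries ℂ) ^ (B' + 1)) = 0 :=
        constantCoeff_X_pow (by omega)
      rw [← ZY_shX G₁ hP.he D b hK hL0']
      refine first_key ?_ ?_ hP hout hK hKs ?_ ?_
      · rw [← n1sh_one]
        exact sh_ne_zero hL0' hG₁0
      · rw [← n1sh_one, PC.constantCoeff_subst' (n1sh_const hL0'), hG₁c]
      · intro _ i
        rw [← n1sh_one]
        fin_cases i
        · exact hB'.not_exact (by decide) hL' one_pos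
        · intro h
          change ExactPow _ 1 1 at h
          rw [exactPow_sh hL0'] at h
          exact hG₁Y 1 one_pos h
      · intro p q A B lam R μ hE
        left
        rw [← n1sh_one] at hE
        rcases edge_shX hG₁0 hB' hL' hE with h | ⟨rfl, rfl, rfl, rfl, hS⟩
        · rcases hG₁E _ _ _ _ _ _ _ h with h | ⟨h, h2, -⟩
          · exact h
          · omega
        · unfold edgeN
          rw [hS]
          ring_nf
          omega
    · refine first_key hG₁0 hG₁c hP hout hK hKs ?_ ?_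
      · intro _ i
        fin_cases i
        · intro h
          change ExactPow _ 0 1 at h
          rw [hG₁', exactPow_sh hL0] at h
          exact hbX h
        · exact hG₁Y 1 one_pos
      · intro p q A B lam R μ hE
        rcases hG₁E _ _ _ _ _ _ _ hE with h | ⟨h, h2, h3⟩
        · exact Or.inl h
        · exact Or.inr ⟨hs, by omega, h3⟩
  · by_cases hbX : ExactPow G 0 1
    · obtain ⟨B', hB'⟩ := exists_bot (i := 1) (j := 0) (by decide) hbX
      have hX0 : MvPowerSeries.X 0 ∣ G := by simpa using hbX.1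
      have hB'1 : B' ≠ 1 := by
        rintro rfl
        have h11 := hB'.ne
        rw [mo_eq_ex'] at h11
        by_cases hX1 : MvPowerSeries.X 1 ∣ G
        · exact h11 (hnode' hX0 hX1)
        · refine no_vertexX hlt' hX1 hB'.pos h11 ?_
          by_contra h01
          have := hB'.min _ h01 (by rw [VM.ex_zero])
          rw [VM.ex_one] at this
          omega
      have hL' : B' < B' + 1 := by omega
      have hL0' : PowerSeries.constantCoeff ((PowerSeries.X : PowerSeries ℂ) ^ (B' + 1)) = 0 :=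
        constantCoeff_X_pow (by omega)
      rw [← ZY_shX G hP.he D b hK hL0']
      refine first_key ?_ ?_ hP hout hK hKs ?_ ?_
      · rw [← n1sh_one]
        exact sh_ne_zero hL0' hG0
      · rw [← n1sh_one, PC.constantCoeff_subst' (n1sh_const hL0'), hGc]
      · intro _ i
        rw [← n1sh_one]
        fin_cases i
        · exact hB'.not_exact (by decide) hL' one_pos
        · intro h
          change ExactPow _ 1 1 at h
          rw [exactPow_sh hL0'] at h
          exact hbY h
      · intro p q A B lam R μ hE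
        rw [← n1sh_one] at hE
        have hm := hE.hm
        rcases edge_shX hG0 hB' hL' hE with h | ⟨rfl, rfl, rfl, rfl, hS⟩
        · exact Or.inl (hlt' _ _ _ _ _ _ _ h)
        · refine Or.inr ⟨hs, ?_, fun c hc => ?_⟩
          · unfold edgeN
            rw [hS]
            ring_nf
            omega
          · have hμS : μ c ≤ ∑ c ∈ R, μ c := Finset.single_le_sum (fun _ _ => Nat.zero_le _) hc
            have := hm c hc
            omega
    · refine first_key hG0 hGc hP hout hK hKs ?_ fun p q A B lam R μ hE =>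
        Or.inl (hlt' p q A B lam R μ hE)
      intro _ i
      fin_cases i
      · exact hbX
      · exact hbY

end YP

end MPb07157
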