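import Pool.Agent.Lib.MP_b07157_agYP.Rec1
import Pool.Agent.Lib.MP_b07157_agYP.Rec2

/-!
# The pole side at a singular point of the tangent cone of a Lê–Yomdin surface
-/

noncomputable section

namespace MPb07157

open MvPolynomial

namespace YP

open PC SU

theorem par_of {e D b : ℕ} {s₀ : ℚ} (he : 0 < e) (hD : 0 < D) (hb : 0 < b) (h1 : s₀ ≠ -1)
    (h2 : (b : ℚ) ≠ -s₀ * D) : Par e D b s₀ (((D + e) * s₀ + b) / e) := by
  have h : (e : ℚ) ≠ 0 := by exact_mod_cast he.ne'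
  exact ⟨he, hD, hb, by field_simp, h1, h2⟩

/-- **Target Y1.** -/
theorem Y1 {F : P2} (hF : F ≠ 0) (h0 : MvPowerSeries.constantCoeff F = 0) {e D b K : ℕ}
    (he : 0 < e) (hD : 0 < D) (hb : 0 < b) (hK : 1 ≤ K) {s₀ : ℚ} (hKs : -s₀ < K) (h1 : s₀ ≠ -1)
    (h2 : (b : ℚ) ≠ -s₀ * D) (hEx : Ex F (((((D + e) * s₀ + b) / e : ℚ)) : ℂ))
    (hAx : AxOK F (((D + e) * s₀ + b) / e)) : ZY F e D b 1 0 K ∈ regularAt s₀ :=
  first hF h0 (par_of he hD hb h1 h2) hEx hAx hK hKs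

/-- **Target Y2.** -/
theorem Y2 {F : P2} (hF : F ≠ 0) (h0 : MvPowerSeries.constantCoeff F = 0) {e D b K : ℕ}
    (he : 0 < e) (hD : 0 < D) (hb : 0 < b) (hK : 1 ≤ K) {s₀ : ℚ} (hKs : -s₀ < K) (h1 : s₀ ≠ -1)
    (h2 : (b : ℚ) ≠ -s₀ * D) (hnode : ¬ IsNode F)
    (hout : ((D + e) * s₀ + b) / e ≤ -1 ∨ 0 ≤ ((D + e) * s₀ + b) / e) :
    ZY F e D b 1 0 K ∈ regularAt s₀ :=
  first_out hF h0 hnode (par_of he hD hb h1 h2) hout hK hKs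

end YP

end MPb07157
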