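import Pool.Agent.Lib.MP_b07157_agYP.Defs
import Pool.Agent.Lib.MP_b07157_agU.C1
import Pool.Agent.Lib.MP_b07157_agU.R1
import Pool.Agent.Lib.MP_b07157_agU.J2

/-!
# The slices `ord z = j`
-/

noncomputable section

namespace MPb07157

open MvPolynomial

namespace YP

open PC SU B2h

variable {r : ℕ}

theorem Ug_subset_Rg (e : Fin r → ℕ) (N : ℕ) {n n' : ℕ} (h : n < n') :
    Ug e N n' ⊆ Rg e N n := fun _ hζ i j hj => hζ.1 i j (by omega)

/-- If `ord F = n` on `S` and `e_i ord ζ_i > n` on `B`, then `ord (F + h) = n`. -/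
theorem muJ_top {F : P2} {e : Fin r → ℕ} (he : ∀ i, 0 < e i) {N n m : ℕ} (hn : n < N)
    {S : Set (Fin 2 × Fin N → ℂ)} {B : Set (Fin r × Fin N → ℂ)} (hB : B ⊆ Rg e N n)
    (h : ∀ γ ∈ S, (valF F γ).order = n) :
    muJ F e N m S B = if n = m then mJ N {x : JI r N → ℂ | xyP x ∈ S ∧ zP x ∈ B} else 0 := by
  have key : ∀ x : JI r N → ℂ, xyP x ∈ S → zP x ∈ B → (val F e x).order = n := by
    intro x h1 h2
    have h3 := h _ h1
    have h4 := dvd_of_mem_Rg he hn (hB h2)
    rw [PowerSeries.order_eq_nat] at h3 ⊢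
    rw [PowerSeries.X_pow_dvd_iff] at h4
    unfold val
    refine ⟨?_, fun i hi => ?_⟩
    · rw [map_add, h4 n (Nat.lt_succ_self n), add_zero]
      exact h3.1
    · rw [map_add, h4 i (by omega), add_zero]
      exact h3.2 i hi
  unfold muJ
  split_ifs with hnm
  · subst hnm
    congr 1
    ext x
    simp only [jset, Set.mem_ofPred_eq]
    exact ⟨fun hx => ⟨hx.1, hx.2.1⟩, fun hx => ⟨hx.1, hx.2, key x hx.1 hx.2⟩⟩
  · have : jset F e N m S B = ∅ := by
      rw [Set.eq_empty_iff_forall_notMem]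
      rintro x ⟨h1, h2, h3⟩
      rw [key x h1 h2] at h3
      exact hnm (by exact_mod_cast h3)
    rw [this]
    unfold mJ clsM
    rw [cls_empty, map_zero, mul_zero]

/-- If `ord F > m` and `ord G > m` on `S`, then `F + h` and `G + h` have order `m` on the same
sets. -/
theorem far_eqB {F G : P2} {e : Fin r → ℕ} {N m : ℕ}
    {S : Set (Fin 2 × Fin N → ℂ)}
    (hF : ∀ γ ∈ S, (PowerSeries.X : PowerSeries ℂ) ^ (m + 1) ∣ valF F γ)
    (hG : ∀ γ ∈ S, (PowerSeries.X : PowerSeries ℂ) ^ (m + 1) ∣ valF G γ)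
    (B : Set (Fin r × Fin N → ℂ)) : muJ F e N m S B = muJ G e N m S B := by
  have key : ∀ (a b c : PowerSeries ℂ), (PowerSeries.X : PowerSeries ℂ) ^ (m + 1) ∣ a →
      (PowerSeries.X : PowerSeries ℂ) ^ (m + 1) ∣ b → (a + c).order = m → (b + c).order = m := by
    intro a b c ha hb h
    rw [PowerSeries.X_pow_dvd_iff] at ha hb
    rw [PowerSeries.order_eq_nat] at h ⊢
    refine ⟨?_, fun i hi => ?_⟩
    · have h1 := h.1
      rw [map_add, ha m (Nat.lt_succ_self m)] at h1
      rwa [map_add, hb m (Nat.lt_succ_self m)]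
    · have h1 := h.2 i hi
      rw [map_add, ha i (by omega)] at h1
      rwa [map_add, hb i (by omega)]
  unfold muJ
  congr 1
  ext x
  simp only [jset, Set.mem_ofPred_eq]
  refine and_congr_right fun h1 => and_congr_right fun _ => ?_
  exact ⟨key _ _ _ (hF _ h1) (hG _ h1), key _ _ _ (hG _ h1) (hF _ h1)⟩

/-- The slices over a stratum on which the initial form is a monomial. -/
theorem cone_eqU {F G : P2} {e : Fin r → ℕ} (he : ∀ i, 0 < e i) {N m : ℕ} (hm : m < N)
    {w : Fin 2 → ℕ} (hw : ∀ j, 1 ≤ w j) (hwN : ∀ j, w j ≤ N) {n : ℕ} (hn : 1 ≤ n)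
    {v : Fin 2 →₀ ℕ} {l l' : ℂ}
    (hF : IsInit F w n (monomial v l)) (hG : IsInit G w n (monomial v l')) {n' : ℕ}
    (hn' : 1 ≤ n') :
    muJ F e N m (Strat N w) (Ug e N n') = muJ G e N m (Strat N w) (Ug e N n') := by
  have hS : IsConstr (Strat N w) := isConstr_Strat N w
  have hS1 : Strat N w ⊆ Start 2 1 N := C1h.strat_subset_start hw
  have hFd : ∀ γ ∈ Strat N w, (PowerSeries.X : PowerSeries ℂ) ^ n ∣ valF F γ :=
    fun γ hγ => (C1h.valF_strat hw hF hγ).2.2
  have hGd : ∀ γ ∈ Strat N w, (PowerSeries.X : PowerSeries ℂ) ^ n ∣ valF G γ :=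
    fun γ hγ => (C1h.valF_strat hw hG hγ).2.2
  rcases lt_or_ge m n with hmn | hnm
  · exact far_eqB (fun γ hγ => (pow_dvd_pow _ hmn).trans (hFd γ hγ))
      (fun γ hγ => (pow_dvd_pow _ hmn).trans (hGd γ hγ)) _
  have hnN : n < N := lt_of_le_of_lt hnm hm
  rcases lt_trichotomy n' n with hlt | heq | hgt
  · exact C1h.muJ_Ug_eq he hm hS hS1 hn' hlt hFd hGd
  · -- by differences
    subst heq
    have k1 := muJ_Rg_split F (e := e) hm hS hS1 (n₀ := n' - 1) (n₁ := n') (by omega)
    have k2 := muJ_Rg_split G (e := e) hm hS hS1 (n₀ := n' - 1) (n₁ := n') (by omega)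
    have hIoc : Finset.Ioc (n' - 1) n' = {n'} := by
      ext k
      simp only [Finset.mem_Ioc, Finset.mem_singleton]
      omega
    rw [hIoc, Finset.sum_singleton] at k1 k2
    have k3 := cone_eq (n₀ := n' - 1) he hm hw hwN hF hG (by omega)
    have hl : l ≠ 0 := by
      rintro rfl
      exact hF.1 (map_zero _)
    have hl' : l' ≠ 0 := by
      rintro rfl
      exact hG.1 (map_zero _)
    have hv : wt w v = n' := hF.2.1 v (by
      rw [mem_support_iff, coeff_monomial, if_pos rfl]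
      exact hl)
    have hord : ∀ {H : P2} {c : ℂ}, c ≠ 0 → IsInit H w n' (monomial v c) →
        ∀ γ ∈ Strat N w, (valF H γ).order = n' := by
      intro H c hc hH γ hγ
      obtain ⟨G', h1, h2⟩ := exists_subst_strat hw hH hγ
      have h0 : ∀ j, w j = N → v j = 0 := by
        intro j hj
        by_contra hne
        have := wt_le_of_ne (a := w) hne
        omega
      have h3 : PowerSeries.constantCoeff G' ≠ 0 := by
        rw [h2, eval_monomial]
        refine mul_ne_zero hc (Finset.prod_ne_zero_iff.2 fun j hj => ?_)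
        refine pow_ne_zero _ (hγ.2 j (lt_of_le_of_ne (hwN j) fun hj2 => ?_))
        exact (Finsupp.mem_support_iff.1 hj) (h0 j hj2)
      have h4 : valF H γ = PowerSeries.X ^ n' * G' := h1
      rw [h4, order_X_pow_mul h3]
    have k4 : muJ F e N m (Strat N w) (Rg e N n') = muJ G e N m (Strat N w) (Rg e N n') := by
      rw [muJ_top he hnN (le_refl _) (hord hl hF), muJ_top he hnN (le_refl _) (hord hl' hG)]
    rw [k1, k2, k4] at k3
    exact add_right_cancel k3
  · have hl : l ≠ 0 := by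
      rintro rfl
      exact hF.1 (map_zero _)
    have hl' : l' ≠ 0 := by
      rintro rfl
      exact hG.1 (map_zero _)
    have hv : wt w v = n := hF.2.1 v (by
      rw [mem_support_iff, coeff_monomial, if_pos rfl]
      exact hl)
    have hord : ∀ {H : P2} {c : ℂ}, c ≠ 0 → IsInit H w n (monomial v c) →
        ∀ γ ∈ Strat N w, (valF H γ).order = n := by
      intro H c hc hH γ hγ
      obtain ⟨G', h1, h2⟩ := exists_subst_strat hw hH hγ
      have h0 : ∀ j, w j = N → v j = 0 := by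
        intro j hj
        by_contra hne
        have := wt_le_of_ne (a := w) hne
        omega
      have h3 : PowerSeries.constantCoeff G' ≠ 0 := by
        rw [h2, eval_monomial]
        refine mul_ne_zero hc (Finset.prod_ne_zero_iff.2 fun j hj => ?_)
        refine pow_ne_zero _ (hγ.2 j (lt_of_le_of_ne (hwN j) fun hj2 => ?_))
        exact (Finsupp.mem_support_iff.1 hj) (h0 j hj2)
      have h4 : valF H γ = PowerSeries.X ^ n * G' := h1
      rw [h4, order_X_pow_mul h3]
    rw [muJ_top he hnN (Ug_subset_Rg e N hgt) (hord hl hF),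
      muJ_top he hnN (Ug_subset_Rg e N hgt) (hord hl' hG)]

/-- The class of the arcs `z` with `ord z = j`. -/
theorem cls_Ug {e : ℕ} (he : 0 < e) {N j : ℕ} (hjN : j < N) :
    cls (Ug (eo e) N (e * j)) = (L - 1) * L ^ (N - (j + 1)) := by
  classical
  have hA : IsConstr {t : Fin 1 → ℂ | t 0 ≠ 0} := by
    have h := isConstr_ne_zero (X 0 : MvPolynomial (Fin 1) ℂ)
    simpa using h
  have hc : (Finset.univ.filter fun p : Fin 1 × Fin N => (p.2 : ℕ) < j).card = j := by
    have h1 : (Finset.univ.filter fun p : Fin 1 × Fin N => (p.2 : ℕ) < j) =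
        Finset.univ ×ˢ (Finset.univ.filter fun l : Fin N => (l : ℕ) < j) := by
      ext ⟨i, l⟩
      rw [Finset.mem_filter, Finset.mem_product, Finset.mem_filter]
      simp only [Finset.mem_univ, true_and]
    rw [h1, Finset.card_product, Finset.card_univ, Fintype.card_fin, one_mul]
    have h2 : (Finset.univ.filter fun l : Fin N => (l : ℕ) < j) = Finset.Iio ⟨j, hjN⟩ := by
      ext l
      simp [Fin.lt_def]
    rw [h2, Fin.card_Iio]
  have h := cls_cell (fun _ : Fin 1 => ((0 : Fin 1), (⟨j, hjN⟩ : Fin N)))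
    (fun i i' _ => Subsingleton.elim i i') _ hA
    (Finset.univ.filter fun p : Fin 1 × Fin N => (p.2 : ℕ) < j) (fun _ => by simp)
    (N - (j + 1)) (by
      rw [hc, Fintype.card_prod, Fintype.card_fin, Fintype.card_fin]
      omega)
  rw [J2x.cls_ne_zero'] at h
  rw [← h]
  congr 1
  ext ζ
  simp only [Ug, Set.mem_ofPred_eq, Finset.mem_filter, Finset.mem_univ, true_and]
  constructor
  · rintro ⟨h1, i, l, hl, h2⟩
    have h3 : (l : ℕ) = j := Nat.eq_of_mul_eq_mul_left he hl
    have h4 : l = ⟨j, hjN⟩ := Fin.ext h3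
    rw [Subsingleton.elim i 0, h4] at h2
    refine ⟨h2, ?_⟩
    rintro ⟨i', l'⟩ hl'
    exact h1 i' l' (Nat.mul_lt_mul_of_pos_left hl' he)
  · rintro ⟨h1, h2⟩
    refine ⟨fun i l hl => h2 (i, l) (Nat.lt_of_mul_lt_mul_left hl), 0, ⟨j, hjN⟩, rfl, h1⟩

/-- The measure of a slice. -/
theorem mJ_Ug {e : ℕ} (he : 0 < e) {N j : ℕ} (hjN : j < N)
    {S : Set (Fin 2 × Fin N → ℂ)} (hS : IsConstr S) :
    mJ N {x : JI 1 N → ℂ | xyP x ∈ S ∧ zP x ∈ Ug (eo e) N (e * j)} =
      muN N S * (P1aux.Lp (j + 1) * ((LU : Mot) - 1)) := by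
  have h1 : {x : JI 1 N → ℂ | xyP x ∈ S ∧ zP x ∈ Ug (eo e) N (e * j)} =
      prodSum S (Ug (eo e) N (e * j)) := rfl
  unfold mJ muN clsM
  rw [h1, cls_prodSum hS (isConstr_Ug _ N _), cls_Ug he hjN, map_mul, map_mul, map_pow, map_sub,
    map_one, ← LU_val, ← Units.val_pow_eq_pow_val]
  have h2 : (2 + 1) * N = 2 * N + N := by ring
  have h3 := J3h.Lp_eq (A := N) (B := j + 1) (C := N - (j + 1)) (by omega)
  rw [h2, pow_add, mul_inv, Units.val_mul, ← h3]
  ring

section

variable {F : P2} {e : Fin r → ℕ} {p q A B : ℕ} {lam : ℂ} {R : Finset ℂ} {μ : ℂ → ℕ}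

/-- The order of `F` on the strata of an edge. -/
theorem edge_dvd (hE : IsEdge F p q A B lam R μ) {k N : ℕ} (hk : 0 < k)
    {γ : Fin 2 × Fin N → ℂ} (hγ : γ ∈ Strat N ![k * p, k * q]) :
    (PowerSeries.X : PowerSeries ℂ) ^ (edgeN p q A B R μ * k) ∣ valF F γ := by
  have hI : IsInit F ![k * p, k * q] (edgeN p q A B R μ * k) (edgeP p q A B lam R μ) := by
    have h := hE.init.smul hk
    rwa [mul_comm k (edgeN p q A B R μ)] at h
  exact (C1h.valF_strat (P1aux.one_le_ray hE.hp hE.hq hk) hI hγ).2.2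

/-- The slices below the edge. -/
theorem ray_lt (he : ∀ i, 0 < e i) (hE : IsEdge F p q A B lam R μ) {k N m n : ℕ} (hk : 0 < k)
    (hm : m < N) (hn : 1 ≤ n) (hn' : n < edgeN p q A B R μ * k) :
    muJ F e N m (Strat N ![k * p, k * q]) (Ug e N n) =
      muJ 0 e N m (Strat N ![k * p, k * q]) (Ug e N n) :=
  R1h.muJ_Ug_zero he hn hm (isConstr_Strat N _)
    (C1h.strat_subset_start (P1aux.one_le_ray hE.hp hE.hq hk)) hn' fun _ hγ => edge_dvd hE hk hγ

/-- The slice at the edge. -/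
theorem ray_eqU (he : ∀ i, 0 < e i) (hE : IsEdge F p q A B lam R μ) {k N m : ℕ} (hk : 0 < k)
    (hkp : k * p < N) (hkq : k * q < N) (hm : m < N) (hn1 : edgeN p q A B R μ * k < N) :
    muJ F e N m (Strat N ![k * p, k * q]) (Ug e N (edgeN p q A B R μ * k)) =
      (if edgeN p q A B R μ * k = m then
        P1aux.Lp ((p + q) * k + 2 + (sg e (edgeN p q A B R μ * k) + r)) *
          clsM (TY e (edgeP p q A B lam R μ) (En e (edgeN p q A B R μ * k))) else 0) +
      (if edgeN p q A B R μ * k < m then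
        P1aux.Lp ((p + q) * k + 2 + (sg e (edgeN p q A B R μ * k) + r) +
          (m - edgeN p q A B R μ * k)) * (((LU : Mot) - 1) *
            clsM (TX e (edgeP p q A B lam R μ) (En e (edgeN p q A B R μ * k)))) else 0) := by
  classical
  have hI : IsInit F ![k * p, k * q] (edgeN p q A B R μ * k) (edgeP p q A B lam R μ) := by
    have h := hE.init.smul hk
    rwa [mul_comm k (edgeN p q A B R μ)] at h
  have hN0 : 1 ≤ edgeN p q A B R μ * k := Nat.mul_pos (P1aux.edgeN_pos hE) hk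
  set w : Fin 2 → ℕ := ![k * p, k * q] with hwdef
  set n₁ : ℕ := edgeN p q A B R μ * k with hn₁
  set P : MvPolynomial (Fin 2) ℂ := edgeP p q A B lam R μ with hP
  have hw : ∀ j, 1 ≤ w j := P1aux.one_le_ray hE.hp hE.hq hk
  have hwN : ∀ j, w j < N := by
    intro j
    fin_cases j
    · exact hkp
    · exact hkq
  have hw2 : w 0 + w 1 + 2 = (p + q) * k + 2 := by
    simp only [hwdef, Matrix.cons_val_zero, Matrix.cons_val_one]
    ring
  have hcS : IsConstr (Strat N w) := isConstr_Strat N w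
  have hS1 : Strat N w ⊆ Start 2 1 N := C1h.strat_subset_start hw
  have hα : ∀ γ : Fin 2 × Fin N → ℂ,
      eval γ (rename (fun j => ((j, ⟨w j, hwN j⟩) : Fin 2 × Fin N)) P) =
        eval (lead0 w γ) P := by
    intro γ
    rw [eval_rename]
    congr 2
    funext j
    unfold lead0
    rw [dif_pos (hwN j)]
    rfl
  have hU := muJ_Ug (F := F) he (n := n₁) (by omega) hm hcS hS1
    (rename (fun j => ((j, ⟨w j, hwN j⟩) : Fin 2 × Fin N)) P) (fun γ hγ => by
      have h := C1h.valF_strat hw hI hγ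
      exact ⟨h.1, fun _ => by rw [h.2.1, hα]⟩)
  simp only [hα] at hU
  rw [mJ_lead_ne he hwN hn1 P, mJ_lead_eq he hwN hn1 P, hw2] at hU
  rw [hU]
  by_cases h1 : n₁ = m
  · rw [if_pos h1, if_pos h1, if_neg (by omega), add_zero]
  · rw [if_neg h1, if_neg h1, zero_add]
    by_cases h2 : n₁ < m
    · rw [if_pos h2, if_pos h2, P1aux.Lp_add ((p + q) * k + 2 + (sg e n₁ + r))]
      ring
    · rw [if_neg h2, if_neg h2]

/-- The slices above the edge. -/
theorem ray_gt (he : ∀ i, 0 < e i) (hE : IsEdge F p q A B lam R μ) {k N m n : ℕ} (hk : 0 < k)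
    (hkp : k * p < N) (hkq : k * q < N) (hm : m < N) (hn1 : edgeN p q A B R μ * k < N)
    (hn : edgeN p q A B R μ * k < n) :
    muJ F e N m (Strat N ![k * p, k * q]) (Ug e N n) =
      (if edgeN p q A B R μ * k = m then
        mJ N {x : JI r N → ℂ | xyP x ∈ {γ | γ ∈ Strat N ![k * p, k * q] ∧
          eval (lead0 ![k * p, k * q] γ) (edgeP p q A B lam R μ) ≠ 0} ∧ zP x ∈ Ug e N n} else 0) +
      ∑ c ∈ R, muJ F e N m (Near N p q k c) (Ug e N n) := by
  classical
  have hI : IsInit F ![k * p, k * q] (edgeN p q A B R μ * k) (edgeP p q A B lam R μ) := by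
    have h := hE.init.smul hk
    rwa [mul_comm k (edgeN p q A B R μ)] at h
  set w : Fin 2 → ℕ := ![k * p, k * q] with hwdef
  set n₁ : ℕ := edgeN p q A B R μ * k with hn₁
  set P : MvPolynomial (Fin 2) ℂ := edgeP p q A B lam R μ with hP
  have hw : ∀ j, 1 ≤ w j := P1aux.one_le_ray hE.hp hE.hq hk
  have hwN : ∀ j, w j < N := by
    intro j
    fin_cases j
    · exact hkp
    · exact hkq
  have hcS : IsConstr (Strat N w) := isConstr_Strat N w
  have hS1 : Strat N w ⊆ Start 2 1 N := C1h.strat_subset_start hw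
  have hNear : ∀ c, Near N p q k c ⊆ Strat N w := fun c γ hγ => hγ.1
  have hcG := R1h.isConstr_lead_ne hwN P
  have hG1 : {γ : Fin 2 × Fin N → ℂ | γ ∈ Strat N w ∧ eval (lead0 w γ) P ≠ 0} ⊆
      Start 2 1 N := fun γ hγ => hS1 hγ.1
  have hlead : ∀ γ ∈ Strat N w, ∀ j, lead0 w γ j ≠ 0 := fun γ hγ j => hγ.2 j (hwN j)
  have hzero : ∀ γ ∈ Strat N w, (eval (lead0 w γ) P = 0 ↔ ∃ c ∈ R, γ ∈ Near N p q k c) := by
    intro γ hγ
    rw [hP, eval_edgeP_eq_zero_iff hE.hlam hE.hm (hlead γ hγ 0) (hlead γ hγ 1)]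
    exact exists_congr fun c => and_congr_right fun _ => ⟨fun h => ⟨hγ, h⟩, fun h => h.2⟩
  let Sf : Option ℂ → Set (Fin 2 × Fin N → ℂ) := fun o => o.elim
    {γ : Fin 2 × Fin N → ℂ | γ ∈ Strat N w ∧ eval (lead0 w γ) P ≠ 0} (fun c => Near N p q k c)
  have hSf : Strat N w = ⋃ o ∈ Finset.insertNone R, Sf o := by
    ext γ
    simp only [Set.mem_iUnion, exists_prop]
    constructor
    · intro hγ
      by_cases h : eval (lead0 w γ) P = 0
      · obtain ⟨c, hc, h2⟩ := (hzero γ hγ).1 h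
        exact ⟨some c, Finset.some_mem_insertNone.2 hc, h2⟩
      · exact ⟨none, Finset.none_mem_insertNone, hγ, h⟩
    · rintro ⟨o, -, h⟩
      rcases o with _ | c
      · exact h.1
      · exact hNear c h
  have hU2 := muJ_biUnion_left (Finset.insertNone R) F e hm (S := Sf) (fun o _ => by
    rcases o with _ | c
    · exact hcG
    · exact isConstr_Near N p q k c) (fun o _ => by
    rcases o with _ | c
    · exact hG1
    · exact (hNear c).trans hS1) (fun o ho o' ho' hoo => by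
    rw [Set.disjoint_left]
    intro γ h1 h2
    rcases o with _ | c <;> rcases o' with _ | c'
    · exact hoo rfl
    · exact h1.2 ((hzero γ h1.1).2 ⟨c', Finset.some_mem_insertNone.1 ho', h2⟩)
    · exact h2.2 ((hzero γ h2.1).2 ⟨c, Finset.some_mem_insertNone.1 ho, h1⟩)
    · apply hoo
      have h3 := h1.2
      have h4 := h2.2
      rw [h3] at h4
      exact congrArg some (mul_right_cancel₀ (pow_ne_zero _ (hlead γ (hNear c h1) 0)) h4))
    (isConstr_Ug e N n)
  rw [← hSf, Finset.sum_insertNone] at hU2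
  have hT := muJ_top (F := F) (m := m) he hn1 (Ug_subset_Rg e N hn)
    (S := {γ : Fin 2 × Fin N → ℂ | γ ∈ Strat N w ∧ eval (lead0 w γ) P ≠ 0}) (fun γ hγ => by
      obtain ⟨G, h1, h2⟩ := exists_subst_strat hw hI hγ.1
      rw [valF, h1]
      exact order_X_pow_mul (by rw [h2]; exact hγ.2))
  rw [hU2]
  congr 1

end

end YP

end MPb07157
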