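import Pool.Agent.Lib.MP_b07157_agYP.Md3
import Pool.Agent.Lib.MP_b07157_agYP.Sl
import Pool.Agent.Lib.MP_b07157_agU.K1

/-!
# The key theorem of the pole side
-/

noncomputable section

namespace MPb07157

open MvPolynomial

namespace YP

open PC SU B2h

variable {e D b : ℕ} {s₀ s₁ : ℚ}

namespace Key

/-- The coefficients of the series of one edge. -/
def f₁ (e : ℕ) (P Q : MvPolynomial (Fin 2) ℂ) : Mot :=
  P1aux.Lp 3 * (clsM (TY (eo e) P Finset.univ) - clsM (TY (eo e) Q Finset.univ))

/-- The coefficients of the series of one edge. -/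
def f₂ (e : ℕ) (P Q : MvPolynomial (Fin 2) ℂ) : Mot :=
  P1aux.Lp 3 * (((LU : Mot) - 1) *
    (clsM (TX (eo e) P Finset.univ) - clsM (TX (eo e) Q Finset.univ)))

/-- The coefficients of the series of one edge. -/
def f₃ (P Q : MvPolynomial (Fin 2) ℂ) : Mot :=
  P1aux.Lp 3 * ((clsM (Tor P) - clsM (Tor Q)) * ((LU : Mot) - 1))

theorem sg_mul (he : 0 < e) (j : ℕ) : sg (eo e) (e * j) = j := by
  simp [sg, eo, Nat.mul_div_cancel_left _ he]

theorem En_mul (e j : ℕ) : En (eo e) (e * j) = Finset.univ := by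
  ext i
  simp [En, eo]

/-- No jets at the roots, far away. -/
theorem root_far {G : P2} {E : ℕ} (hG : MvPowerSeries.X 0 ^ E ∣ G) (he : 0 < e) {k N m n : ℕ}
    (hk : 0 < k) (hmN : m < N) (hm : m < E * k) (hn : m < n) :
    muJ G (eo e) N m (Start 2 1 N ∩ Xo N k) (Ug (eo e) N n) = 0 := by
  refine muJ_eq_zero _ _ fun γ hγ ζ hζ => ?_
  refine dvd_add ((pow_dvd_pow _ ?_).trans (K1.dvd_Xo hG hk hγ))
    (dvd_of_mem_Rg (fun _ => he) hmN (Ug_subset_Rg _ N hn hζ))
  rw [mul_comm]
  exact hm

/-- The contribution of one ray and one slice. -/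
theorem ray_formula {F g : P2} (he : 0 < e) (hD : 0 < D) {a A₀ : ℕ} (ha : 1 ≤ a) (hb : 0 < b)
    {p q A B : ℕ} {lam lam' : ℂ} {R R' : Finset ℂ} {μ μ' : ℂ → ℕ}
    (hE : IsEdge F p q A B lam R μ) (hE' : IsEdge g p q A B lam' R' μ')
    (hN' : edgeN p q A B R' μ' = edgeN p q A B R μ) (hA₀ : A₀ * p < edgeN p q A B R μ)
    {α β : ℕ} (hab : p * α = q * β + 1) {k j N m : ℕ} (hk : 0 < k) (hj : 0 < j) (hm : m < N) :
    (if k * p ≤ N ∧ k * q ≤ N then (if A₀ * (k * p) < e * j ∧ D * j ≤ m then
      P1aux.Lp ((a - 1) * (k * p) + (b - 1) * j) *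
      (muJ F (eo e) N (m - D * j) (Strat N ![k * p, k * q]) (Ug (eo e) N (e * j)) -
        muJ g (eo e) N (m - D * j) (Strat N ![k * p, k * q]) (Ug (eo e) N (e * j)))
      else 0) else 0) =
    (if e * j = edgeN p q A B R μ * k ∧ D * j + edgeN p q A B R μ * k = m then
      f₁ e (edgeP p q A B lam R μ) (edgeP p q A B lam' R' μ') *
        P1aux.Lp ((a * p + q) * k + b * j) else 0) +
    (if e * j = edgeN p q A B R μ * k ∧ D * j + edgeN p q A B R μ * k < m then
      f₂ e (edgeP p q A B lam R μ) (edgeP p q A B lam' R' μ') *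
        P1aux.Lp ((a * p + q) * k + b * j + (m - (D * j + edgeN p q A B R μ * k))) else 0) +
    (if edgeN p q A B R μ * k < e * j ∧ D * j + edgeN p q A B R μ * k = m then
      f₃ (edgeP p q A B lam R μ) (edgeP p q A B lam' R' μ') *
        P1aux.Lp ((a * p + q) * k + b * j) else 0) +
    (∑ c ∈ R, (if edgeN p q A B R μ * k < e * j ∧ D * j ≤ m then
        P1aux.Lp ((a * p + q - 1) * k + (b - 1) * j) *
        muJ (MvPowerSeries.subst (kap p q α β c) F) (eo e) N (m - D * j)
          (Start 2 1 N ∩ Xo N k) (Ug (eo e) N (e * j)) else 0) -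
      ∑ c ∈ R', (if edgeN p q A B R μ * k < e * j ∧ D * j ≤ m then
        P1aux.Lp ((a * p + q - 1) * k + (b - 1) * j) *
        muJ (MvPowerSeries.subst (kap p q α β c) g) (eo e) N (m - D * j)
          (Start 2 1 N ∩ Xo N k) (Ug (eo e) N (e * j)) else 0)) := by
  classical
  have he' : ∀ i, 0 < eo e i := fun _ => he
  have hp := hE.hp
  have hq := hE.hq
  have hEN := P1aux.edgeN_pos hE
  have hej : 1 ≤ e * j := Nat.mul_pos he hj
  have hn₀ : A₀ * (k * p) < edgeN p q A B R μ * k := by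
    calc A₀ * (k * p) = A₀ * p * k := by ring
      _ < edgeN p q A B R μ * k := Nat.mul_lt_mul_of_pos_right hA₀ hk
  have hsF : ∀ c ∈ R, MvPowerSeries.X 0 ^ edgeN p q A B R μ ∣
      MvPowerSeries.subst (kap p q α β c) F := fun c hc => (YOrd.sub hE hc hab).dvd
  have hsg : ∀ c ∈ R', MvPowerSeries.X 0 ^ edgeN p q A B R μ ∣
      MvPowerSeries.subst (kap p q α β c) g := fun c hc => by
    rw [← hN']
    exact (YOrd.sub hE' hc hab).dvd
  by_cases hDj : D * j ≤ m
  swap
  · rw [if_neg (c := e * j = edgeN p q A B R μ * k ∧ D * j + edgeN p q A B R μ * k = m)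
        (by omega),
      if_neg (c := e * j = edgeN p q A B R μ * k ∧ D * j + edgeN p q A B R μ * k < m)
        (by omega),
      if_neg (c := edgeN p q A B R μ * k < e * j ∧ D * j + edgeN p q A B R μ * k = m)
        (by omega)]
    rw [if_neg (c := A₀ * (k * p) < e * j ∧ D * j ≤ m) (fun h => hDj h.2), ite_self]
    rw [Finset.sum_eq_zero, Finset.sum_eq_zero]
    · ring
    · exact fun c _ => if_neg fun h => hDj h.2
    · exact fun c _ => if_neg fun h => hDj h.2
  have hm' : m - D * j < N := by omega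
  have hfar : ∀ {H : P2} {lam : ℂ} {R : Finset ℂ} {μ : ℂ → ℕ}, IsEdge H p q A B lam R μ →
      m < edgeN p q A B R μ * k → ∀ γ ∈ Strat N ![k * p, k * q],
      (PowerSeries.X : PowerSeries ℂ) ^ (m - D * j + 1) ∣ valF H γ := by
    intro H lam R μ hH hlt γ hγ
    exact (pow_dvd_pow _ (by omega)).trans (edge_dvd hH hk hγ)
  by_cases h : k * p < N ∧ k * q < N
  · obtain ⟨h1, h2⟩ := h
    rw [if_pos ⟨h1.le, h2.le⟩]
    rcases lt_trichotomy (e * j) (edgeN p q A B R μ * k) with h3 | h3 | h3
    · -- below the edge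
      rw [if_neg (c := e * j = edgeN p q A B R μ * k ∧ D * j + edgeN p q A B R μ * k = m)
          (by omega),
        if_neg (c := e * j = edgeN p q A B R μ * k ∧ D * j + edgeN p q A B R μ * k < m)
          (by omega),
        if_neg (c := edgeN p q A B R μ * k < e * j ∧ D * j + edgeN p q A B R μ * k = m)
          (by omega)]
      rw [ray_lt he' hE hk hm' hej h3, ray_lt he' hE' hk hm' hej (by rw [hN']; exact h3), sub_self,
        mul_zero, ite_self, Finset.sum_eq_zero, Finset.sum_eq_zero]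
      · ring
      · exact fun c _ => if_neg (by omega)
      · exact fun c _ => if_neg (by omega)
    · -- at the edge
      rw [if_neg (c := edgeN p q A B R μ * k < e * j ∧ D * j + edgeN p q A B R μ * k = m)
          (by omega), Finset.sum_eq_zero (fun c _ => if_neg (by omega)),
        Finset.sum_eq_zero (fun c _ => if_neg (by omega)), sub_zero, add_zero, add_zero,
        if_pos ⟨by rw [h3]; exact hn₀, hDj⟩]
      rcases Nat.lt_or_ge (edgeN p q A B R μ * k) N with h4 | h4
      · have k1 := ray_eqU he' hE hk h1 h2 hm' h4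
        have k2 := ray_eqU he' hE' hk h1 h2 hm' (by rw [hN']; exact h4)
        rw [hN'] at k2
        rw [← h3] at k1 k2 ⊢
        rw [sg_mul he, En_mul] at k1 k2
        rw [k1, k2]
        obtain ⟨a, rfl⟩ : ∃ b, a = b + 1 := ⟨a - 1, by omega⟩
        obtain ⟨b, rfl⟩ : ∃ c, b = c + 1 := ⟨b - 1, by omega⟩
        obtain ⟨p, rfl⟩ : ∃ b, p = b + 1 := ⟨p - 1, by omega⟩
        have e1 : P1aux.Lp ((a + 1 - 1) * (k * (p + 1)) + (b + 1 - 1) * j) *
            P1aux.Lp ((p + 1 + q) * k + 2 + (j + 1)) =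
            P1aux.Lp 3 * P1aux.Lp (((a + 1) * (p + 1) + q) * k + (b + 1) * j) := by
          rw [← P1aux.Lp_add, ← P1aux.Lp_add]
          congr 1
          rw [Nat.add_sub_cancel, Nat.add_sub_cancel]
          ring
        have e2 : P1aux.Lp ((a + 1 - 1) * (k * (p + 1)) + (b + 1 - 1) * j) *
            P1aux.Lp ((p + 1 + q) * k + 2 + (j + 1) + (m - D * j - e * j)) =
            P1aux.Lp 3 * P1aux.Lp (((a + 1) * (p + 1) + q) * k + (b + 1) * j +
              (m - (D * j + e * j))) := by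
          rw [← P1aux.Lp_add, ← P1aux.Lp_add]
          congr 1
          rw [Nat.add_sub_cancel, Nat.add_sub_cancel, Nat.sub_sub]
          ring
        unfold f₁ f₂
        by_cases h5 : D * j + e * j = m
        · rw [if_pos (c := e * j = m - D * j) (by omega), if_pos (c := e * j = m - D * j) (by omega),
            if_neg (c := e * j < m - D * j) (by omega), if_neg (c := e * j < m - D * j) (by omega),
            if_pos (c := e * j = e * j ∧ D * j + e * j = m) ⟨rfl, h5⟩,
            if_neg (c := e * j = e * j ∧ D * j + e * j < m) (by omega)]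
          linear_combination (clsM (TY (eo e) (edgeP (p + 1) q A B lam R μ) Finset.univ) -
            clsM (TY (eo e) (edgeP (p + 1) q A B lam' R' μ') Finset.univ)) * e1
        · rw [if_neg (c := e * j = m - D * j) (by omega), if_neg (c := e * j = m - D * j) (by omega),
            if_neg (c := e * j = e * j ∧ D * j + e * j = m) (by omega)]
          by_cases h6 : D * j + e * j < m
          · rw [if_pos (c := e * j < m - D * j) (by omega),
              if_pos (c := e * j < m - D * j) (by omega),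
              if_pos (c := e * j = e * j ∧ D * j + e * j < m) ⟨rfl, h6⟩]
            linear_combination (((LU : Mot) - 1) *
              (clsM (TX (eo e) (edgeP (p + 1) q A B lam R μ) Finset.univ) -
              clsM (TX (eo e) (edgeP (p + 1) q A B lam' R' μ') Finset.univ))) * e2
          · rw [if_neg (c := e * j < m - D * j) (by omega),
              if_neg (c := e * j < m - D * j) (by omega),
              if_neg (c := e * j = e * j ∧ D * j + e * j < m) (by omega)]
            ring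
      · -- far
        rw [far_eqB (hfar hE (by omega)) (hfar hE' (by rw [hN']; omega)), sub_self, mul_zero,
          if_neg (by omega), if_neg (by omega), add_zero]
    · -- above the edge
      rw [if_neg (c := e * j = edgeN p q A B R μ * k ∧ D * j + edgeN p q A B R μ * k = m)
          (by omega),
        if_neg (c := e * j = edgeN p q A B R μ * k ∧ D * j + edgeN p q A B R μ * k < m)
          (by omega), zero_add, zero_add, if_pos ⟨hn₀.trans h3, hDj⟩]
      rw [Finset.sum_congr rfl fun c _ => if_pos ⟨h3, hDj⟩,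
        Finset.sum_congr rfl fun c _ => if_pos ⟨h3, hDj⟩]
      have hB : IsConstr (Ug (eo e) N (e * j)) := isConstr_Ug _ N _
      rcases Nat.lt_or_ge (edgeN p q A B R μ * k) N with h4 | h4
      · have k1 := ray_gt he' hE hk h1 h2 hm' h4 h3
        have k2 := ray_gt he' hE' hk h1 h2 hm' (by rw [hN']; exact h4) (by rw [hN']; exact h3)
        rw [hN'] at k2
        have hnear : ∀ c ∈ R, muJ F (eo e) N (m - D * j) (Near N p q k c) (Ug (eo e) N (e * j)) =
            P1aux.Lp ((p + q - 1) * k) * muJ (MvPowerSeries.subst (kap p q α β c) F) (eo e) N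
              (m - D * j) (Start 2 1 N ∩ Xo N k) (Ug (eo e) N (e * j)) := by
          intro c hc
          exact near_rootJ (eo e) hp hq hab (fun h => hE.hR0 (h ▸ hc)) hk h1 h2 hm' hB
        have hnear' : ∀ c ∈ R', muJ g (eo e) N (m - D * j) (Near N p q k c) (Ug (eo e) N (e * j)) =
            P1aux.Lp ((p + q - 1) * k) * muJ (MvPowerSeries.subst (kap p q α β c) g) (eo e) N
              (m - D * j) (Start 2 1 N ∩ Xo N k) (Ug (eo e) N (e * j)) := by
          intro c hc
          exact near_rootJ (eo e) hp hq hab (fun h => hE'.hR0 (h ▸ hc)) hk h1 h2 hm' hB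
        rw [Finset.sum_congr rfl hnear, ← Finset.mul_sum] at k1
        rw [Finset.sum_congr rfl hnear', ← Finset.mul_sum] at k2
        rw [k1, k2, ← Finset.mul_sum, ← Finset.mul_sum]
        have e3 : P1aux.Lp ((a - 1) * (k * p) + (b - 1) * j) * P1aux.Lp ((p + q - 1) * k) =
            P1aux.Lp ((a * p + q - 1) * k + (b - 1) * j) := by
          rw [← P1aux.Lp_add]
          congr 1
          obtain ⟨a, rfl⟩ : ∃ b, a = b + 1 := ⟨a - 1, by omega⟩
          obtain ⟨p, rfl⟩ : ∃ b, p = b + 1 := ⟨p - 1, by omega⟩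
          rw [Nat.add_sub_cancel, show p + 1 + q - 1 = p + q by omega,
            show (a + 1) * (p + 1) + q - 1 = a * (p + 1) + p + q by
              rw [add_mul, one_mul]; omega]
          ring
        rw [← e3]
        by_cases h5 : D * j + edgeN p q A B R μ * k = m
        · have h6 : edgeN p q A B R μ * k = m - D * j := by omega
          rw [if_pos h6, if_pos h6, if_pos ⟨h3, h5⟩]
          have hw : ∀ i, (![k * p, k * q] : Fin 2 → ℕ) i < N := by
            intro i
            fin_cases i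
            · exact h1
            · exact h2
          · have h7 : j < N := by
              have := Nat.le_mul_of_pos_left j hD
              omega
            rw [mJ_Ug he h7 (R1h.isConstr_lead_ne hw _),
              mJ_Ug he h7 (R1h.isConstr_lead_ne hw _), muN_strat_ne hw, muN_strat_ne hw]
            have e4 : P1aux.Lp ((a - 1) * (k * p) + (b - 1) * j) *
                (P1aux.Lp (k * p + k * q + 2) * P1aux.Lp (j + 1)) =
                P1aux.Lp 3 * P1aux.Lp ((a * p + q) * k + b * j) := by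
              rw [← P1aux.Lp_add, ← P1aux.Lp_add, ← P1aux.Lp_add]
              congr 1
              obtain ⟨a, rfl⟩ : ∃ b, a = b + 1 := ⟨a - 1, by omega⟩
              obtain ⟨b, rfl⟩ : ∃ c, b = c + 1 := ⟨b - 1, by omega⟩
              rw [Nat.add_sub_cancel, Nat.add_sub_cancel]
              ring
            have e5 : ((LU ^ (-(((![k * p, k * q] : Fin 2 → ℕ) 0 +
                (![k * p, k * q] : Fin 2 → ℕ) 1 + 2 : ℕ) : ℤ)) : Motˣ) : Mot) =
                P1aux.Lp (k * p + k * q + 2) := rfl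
            rw [e5]
            unfold f₃
            linear_combination ((clsM (Tor (edgeP p q A B lam R μ)) -
              clsM (Tor (edgeP p q A B lam' R' μ'))) * ((LU : Mot) - 1)) * e4
        · have h6 : ¬ edgeN p q A B R μ * k = m - D * j := by omega
          rw [if_neg h6, if_neg h6, if_neg (fun h => h5 h.2)]
          ring
      · rw [far_eqB (hfar hE (by omega)) (hfar hE' (by rw [hN']; omega)), sub_self, mul_zero,
          if_neg (by omega), Finset.sum_eq_zero, Finset.sum_eq_zero]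
        · ring
        · exact fun c hc => by
            rw [root_far (hsg c hc) he hk hm' (by omega) (by omega), mul_zero]
        · exact fun c hc => by
            rw [root_far (hsF c hc) he hk hm' (by omega) (by omega), mul_zero]
  · have hN : N ≤ edgeN p q A B R μ * k := by
      obtain ⟨h1, h2⟩ := P1aux.le_edgeN hE
      have h3 := Nat.mul_le_mul h1 (le_refl k)
      have h4 := Nat.mul_le_mul h2 (le_refl k)
      by_contra h5
      apply h
      constructor
      · rw [mul_comm]; omega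
      · rw [mul_comm]; omega
    rw [far_eqB (hfar hE (by omega)) (hfar hE' (by rw [hN']; omega)), sub_self, mul_zero,
      ite_self, ite_self, if_neg (by omega), if_neg (by omega), if_neg (by omega),
      Finset.sum_eq_zero, Finset.sum_eq_zero]
    · ring
    · intro c hc
      split_ifs with h1
      · rw [root_far (hsg c hc) he hk hm' (by omega) (by omega), mul_zero]
      · rfl
    · intro c hc
      split_ifs with h1
      · rw [root_far (hsF c hc) he hk hm' (by omega) (by omega), mul_zero]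
      · rfl

theorem coeff_ZY (F : P2) (e D b a A K m : ℕ) : PowerSeries.coeff m (ZY F e D b a A K) =
    ∑ k ∈ Finset.Icc 1 (K * (m + 1)), ∑ j ∈ Finset.Icc 1 (K * (m + 1)),
      if A * k < e * j ∧ D * j ≤ m then P1aux.Lp ((a - 1) * k + (b - 1) * j) *
        muJ F (eo e) (K * (m + 1)) (m - D * j)
          (Start 2 1 (K * (m + 1)) ∩ Xo (K * (m + 1)) k)
          (Ug (eo e) (K * (m + 1)) (e * j)) else 0 := PowerSeries.coeff_mk _ _

theorem sum_ext {D E N m : ℕ} (hE : 0 < E) (hD : 0 < D) (hm : m < N) (G : ℕ → ℕ → Mot)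
    (hG : ∀ k j, m < D * j + E * k → G k j = 0) :
    ∑ k ∈ Finset.Icc 1 N, ∑ j ∈ Finset.Icc 1 N, G k j =
      ∑ k ∈ Finset.Icc 1 m, ∑ j ∈ Finset.Icc 1 m, G k j := by
  symm
  refine (Finset.sum_congr rfl fun k _ => ?_).trans
    (Finset.sum_subset (Finset.Icc_subset_Icc_right hm.le) ?_)
  · refine Finset.sum_subset (Finset.Icc_subset_Icc_right hm.le) fun j hj hj' => ?_
    apply hG
    rw [Finset.mem_Icc] at hj hj'
    have := Nat.le_mul_of_pos_left j hD
    omega
  · intro k hk hk'
    refine Finset.sum_eq_zero fun j _ => ?_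
    apply hG
    rw [Finset.mem_Icc] at hk hk'
    have := Nat.le_mul_of_pos_left k hE
    omega

/-- The sum over one ray. -/
theorem ray_sum {F g : P2} (he : 0 < e) (hD : 0 < D) {a A₀ : ℕ} (ha : 1 ≤ a) (hb : 0 < b)
    {p q A B : ℕ} {lam lam' : ℂ} {R R' : Finset ℂ} {μ μ' : ℂ → ℕ}
    (hE : IsEdge F p q A B lam R μ) (hE' : IsEdge g p q A B lam' R' μ')
    (hN' : edgeN p q A B R' μ' = edgeN p q A B R μ) (hA₀ : A₀ * p < edgeN p q A B R μ)
    {α β : ℕ} (hab : p * α = q * β + 1) {K m : ℕ} (hK : 1 ≤ K) :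
    (∑ k ∈ Finset.Icc 1 (K * (m + 1)), if k * p ≤ K * (m + 1) ∧ k * q ≤ K * (m + 1) then
      ∑ j ∈ Finset.Icc 1 (K * (m + 1)), (if A₀ * (k * p) < e * j ∧ D * j ≤ m then
      P1aux.Lp ((a - 1) * (k * p) + (b - 1) * j) *
      (muJ F (eo e) (K * (m + 1)) (m - D * j) (Strat (K * (m + 1)) ![k * p, k * q])
          (Ug (eo e) (K * (m + 1)) (e * j)) -
        muJ g (eo e) (K * (m + 1)) (m - D * j) (Strat (K * (m + 1)) ![k * p, k * q])
          (Ug (eo e) (K * (m + 1)) (e * j))) else 0) else 0) =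
    PowerSeries.coeff m (
      cs (fun k j => e * j = edgeN p q A B R μ * k)
        (f₁ e (edgeP p q A B lam R μ) (edgeP p q A B lam' R' μ')) (a * p + q) b
        (edgeN p q A B R μ) D +
      cs2 (fun k j => e * j = edgeN p q A B R μ * k)
        (f₂ e (edgeP p q A B lam R μ) (edgeP p q A B lam' R' μ')) (a * p + q) b
        (edgeN p q A B R μ) D +
      cs (fun k j => edgeN p q A B R μ * k < e * j)
        (f₃ (edgeP p q A B lam R μ) (edgeP p q A B lam' R' μ')) (a * p + q) b
        (edgeN p q A B R μ) D +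
      (∑ c ∈ R, ZY (MvPowerSeries.subst (kap p q α β c) F) e D b (a * p + q)
        (edgeN p q A B R μ) K -
      ∑ c ∈ R', ZY (MvPowerSeries.subst (kap p q α β c) g) e D b (a * p + q)
        (edgeN p q A B R μ) K)) := by
  have hN := P1aux.edgeN_pos hE
  have hm : m < K * (m + 1) := by nlinarith
  have h1 : ∀ k ∈ Finset.Icc 1 (K * (m + 1)),
      (if k * p ≤ K * (m + 1) ∧ k * q ≤ K * (m + 1) then
        ∑ j ∈ Finset.Icc 1 (K * (m + 1)), (if A₀ * (k * p) < e * j ∧ D * j ≤ m then
        P1aux.Lp ((a - 1) * (k * p) + (b - 1) * j) *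
        (muJ F (eo e) (K * (m + 1)) (m - D * j) (Strat (K * (m + 1)) ![k * p, k * q])
            (Ug (eo e) (K * (m + 1)) (e * j)) -
          muJ g (eo e) (K * (m + 1)) (m - D * j) (Strat (K * (m + 1)) ![k * p, k * q])
            (Ug (eo e) (K * (m + 1)) (e * j))) else 0) else 0) =
      ∑ j ∈ Finset.Icc 1 (K * (m + 1)),
        (if k * p ≤ K * (m + 1) ∧ k * q ≤ K * (m + 1) then
          (if A₀ * (k * p) < e * j ∧ D * j ≤ m then
        P1aux.Lp ((a - 1) * (k * p) + (b - 1) * j) *
        (muJ F (eo e) (K * (m + 1)) (m - D * j) (Strat (K * (m + 1)) ![k * p, k * q])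
            (Ug (eo e) (K * (m + 1)) (e * j)) -
          muJ g (eo e) (K * (m + 1)) (m - D * j) (Strat (K * (m + 1)) ![k * p, k * q])
            (Ug (eo e) (K * (m + 1)) (e * j))) else 0) else 0) := by
    intro k _
    split_ifs with h
    · rfl
    · rw [Finset.sum_const_zero]
  rw [Finset.sum_congr rfl h1]
  rw [Finset.sum_congr rfl fun k hk => Finset.sum_congr rfl fun j hj =>
    ray_formula he hD ha hb hE hE' hN' hA₀ hab (Finset.mem_Icc.1 hk).1 (Finset.mem_Icc.1 hj).1 hm]
  simp only [Finset.sum_add_distrib, Finset.sum_sub_distrib]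
  rw [map_add, map_add, map_add, map_sub, map_sum, map_sum]
  congr 1
  · congr 1
    · congr 1
      · rw [cs, PowerSeries.coeff_mk]
        exact sum_ext hN hD hm _ fun k j h => if_neg (by omega)
      · rw [cs2, PowerSeries.coeff_mk]
        exact sum_ext hN hD hm _ fun k j h => if_neg (by omega)
    · rw [cs, PowerSeries.coeff_mk]
      exact sum_ext hN hD hm _ fun k j h => if_neg (by omega)
  · congr 1
    · rw [Finset.sum_congr rfl fun k _ => Finset.sum_comm, Finset.sum_comm]
      exact Finset.sum_congr rfl fun c _ => (coeff_ZY _ _ _ _ _ _ _ _).symm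
    · rw [Finset.sum_congr rfl fun k _ => Finset.sum_comm, Finset.sum_comm]
      exact Finset.sum_congr rfl fun c _ => (coeff_ZY _ _ _ _ _ _ _ _).symm

/-- The coefficients, as a sum over the orders of both coordinates. -/
theorem coeff_ZY_strat (F : P2) (e D b a A : ℕ) {K : ℕ} (hK : 1 ≤ K) (m : ℕ) :
    PowerSeries.coeff m (ZY F e D b a A K) =
      ∑ w ∈ Fintype.piFinset (fun _ : Fin 2 => Finset.Icc 1 (K * (m + 1))),
        ∑ j ∈ Finset.Icc 1 (K * (m + 1)), (if A * w 0 < e * j ∧ D * j ≤ m then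
          P1aux.Lp ((a - 1) * w 0 + (b - 1) * j) * muJ F (eo e) (K * (m + 1)) (m - D * j)
            (Strat (K * (m + 1)) w) (Ug (eo e) (K * (m + 1)) (e * j)) else 0) := by
  have hm : m < K * (m + 1) := by nlinarith
  rw [coeff_ZY, K1.sum_pi]
  refine Finset.sum_congr rfl fun k hk => ?_
  rw [Finset.mem_Icc] at hk
  rw [Finset.sum_comm]
  refine Finset.sum_congr rfl fun j _ => ?_
  by_cases h : A * k < e * j ∧ D * j ≤ m
  · rw [if_pos h, muJ_Xo F (eo e) (lt_of_le_of_lt (Nat.sub_le _ _) hm) hk.1 hk.2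
      (isConstr_Ug _ _ _), Finset.mul_sum]
    exact Finset.sum_congr rfl fun l _ => (if_pos h).symm
  · rw [if_neg h]
    exact (Finset.sum_eq_zero fun l _ => if_neg h).symm

/-- **Explicit formula.** -/
theorem ZY_formula {F : P2} (hF : F ≠ 0) (he : 0 < e) (hD : 0 < D) (hb : 0 < b) {A₀ : ℕ}
    (hFA : ∀ v, MvPowerSeries.coeff v F ≠ 0 → A₀ ≤ v 0 ∧ v ≠ ex A₀ 0) :
    ∃ g : MvPolynomial (Fin 2) ℂ, g ≠ 0 ∧
    (∀ v ∈ g.support, MvPowerSeries.coeff v F ≠ 0) ∧
    (∀ a : Fin 2 → ℕ, (∀ j, 1 ≤ a j) → NondegAt g (face g a (nuf g a))) ∧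
    (∀ (w : Fin 2 → ℕ) (N : ℕ), IsFacetWt g w N →
      (∃ A k, ExactPow F 0 A ∧ 0 < A ∧ 0 < k ∧ w = ![k, 0] ∧ N = k * A) ∨
      (∃ B k, ExactPow F 1 B ∧ 0 < B ∧ 0 < k ∧ w = ![0, k] ∧ N = k * B) ∨
      (∃ (p q A B : ℕ) (lam : ℂ) (R : Finset ℂ) (μ : ℂ → ℕ) (k : ℕ), IsEdge F p q A B lam R μ ∧
        0 < k ∧ w = ![k * p, k * q] ∧ N = k * edgeN p q A B R μ)) ∧
    ∃ (ι : Type) (_ : Fintype ι) (p q A B α β : ι → ℕ) (lam : ι → ℂ) (R R' : ι → Finset ℂ)
      (μ : ι → ℂ → ℕ),
      (∀ i, IsEdge F (p i) (q i) (A i) (B i) (lam i) (R i) (μ i)) ∧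
      (∀ i, IsEdge (g : P2) (p i) (q i) (A i) (B i) 1 (R' i) (fun _ => 1)) ∧
      (∀ i, edgeN (p i) (q i) (A i) (B i) (R' i) (fun _ => 1) =
        edgeN (p i) (q i) (A i) (B i) (R i) (μ i)) ∧
      (∀ i, p i * α i = q i * β i + 1) ∧
      ∀ (a K : ℕ), 1 ≤ a → 1 ≤ K → ZY F e D b a A₀ K = ZY (g : P2) e D b a A₀ K +
        ∑ i, (cs (fun k j => e * j = edgeN (p i) (q i) (A i) (B i) (R i) (μ i) * k)
              (f₁ e (edgeP (p i) (q i) (A i) (B i) (lam i) (R i) (μ i))
              (edgeP (p i) (q i) (A i) (B i) 1 (R' i) (fun _ => 1))) (a * p i + q i) b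
              (edgeN (p i) (q i) (A i) (B i) (R i) (μ i)) D +
            cs2 (fun k j => e * j = edgeN (p i) (q i) (A i) (B i) (R i) (μ i) * k)
              (f₂ e (edgeP (p i) (q i) (A i) (B i) (lam i) (R i) (μ i))
              (edgeP (p i) (q i) (A i) (B i) 1 (R' i) (fun _ => 1))) (a * p i + q i) b
              (edgeN (p i) (q i) (A i) (B i) (R i) (μ i)) D +
            cs (fun k j => edgeN (p i) (q i) (A i) (B i) (R i) (μ i) * k < e * j)
              (f₃ (edgeP (p i) (q i) (A i) (B i) (lam i) (R i) (μ i))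
              (edgeP (p i) (q i) (A i) (B i) 1 (R' i) (fun _ => 1))) (a * p i + q i) b
              (edgeN (p i) (q i) (A i) (B i) (R i) (μ i)) D +
            (∑ c ∈ R i, ZY (MvPowerSeries.subst (kap (p i) (q i) (α i) (β i) c) F) e D b
              (a * p i + q i) (edgeN (p i) (q i) (A i) (B i) (R i) (μ i)) K -
            ∑ c ∈ R' i, ZY (MvPowerSeries.subst (kap (p i) (q i) (α i) (β i) c) (g : P2)) e D b
              (a * p i + q i) (edgeN (p i) (q i) (A i) (B i) (R i) (μ i)) K)) := by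
  classical
  obtain ⟨g, hg0, hgF, hg1, hg2, hg3, hg4⟩ := exists_model' hF
  obtain ⟨ι, hι, p, q, A, B, lam, R, μ, hEd, hinj, hcov⟩ := exists_edges hF
  choose R' hR' hN' using fun i => K1.model_edge (hEd i) (hg2 _ _ _ _ _ _ _ (hEd i))
  choose α β hab using fun i => P1aux.exists_ab (hEd i).hp (hEd i).hq (hEd i).hpq
  refine ⟨g, hg0, hgF, hg3, hg4, ι, hι, p, q, A, B, α, β, lam, R, R', μ, hEd, hR', hN', hab, ?_⟩
  intro a K ha hK
  ext m
  have hm : m < K * (m + 1) := by nlinarith
  rw [map_add, map_sum, coeff_ZY_strat F e D b a A₀ hK, coeff_ZY_strat (g : P2) e D b a A₀ hK,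
    ← sub_eq_iff_eq_add', ← Finset.sum_sub_distrib,
    ← Finset.sum_congr rfl fun i _ => ray_sum he hD ha hb (hEd i) (hR' i) (hN' i)
      (K1.edgeN_gt (hEd i) hFA) (hab i) hK]
  refine Eq.trans ?_ (P1aux.sum_box (fun i => (hEd i).hp) (fun i => (hEd i).hq)
    (fun i => (hEd i).hpq) hinj (K * (m + 1)) (fun w => ∑ j ∈ Finset.Icc 1 (K * (m + 1)),
      (if A₀ * w 0 < e * j ∧ D * j ≤ m then P1aux.Lp ((a - 1) * w 0 + (b - 1) * j) *
      (muJ F (eo e) (K * (m + 1)) (m - D * j) (Strat (K * (m + 1)) w)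
          (Ug (eo e) (K * (m + 1)) (e * j)) -
        muJ (g : P2) (eo e) (K * (m + 1)) (m - D * j) (Strat (K * (m + 1)) w)
          (Ug (eo e) (K * (m + 1)) (e * j))) else 0)) ?_)
  · refine Finset.sum_congr rfl fun w _ => ?_
    rw [← Finset.sum_sub_distrib]
    refine Finset.sum_congr rfl fun j _ => ?_
    split_ifs with h
    · rw [mul_sub]
    · rw [sub_zero]
  · intro w hw hwN
    rcases hcov w hw with ⟨n, v, l, hI⟩ | h
    · left
      obtain ⟨hl, hwt, hcv, -⟩ := VM.init_mono hI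
      obtain ⟨hv1, hv2⟩ := hFA v (by rw [hcv]; exact hl)
      have hn : A₀ * w 0 < n := by
        rw [← hwt, VM.wt2]
        rcases Nat.eq_zero_or_pos (v 1) with h1 | h1
        · have h2 : A₀ ≠ v 0 := by
            intro h2
            apply hv2
            rw [h2]
            exact VM.ext2 (VM.ex_zero _ _).symm (by rw [VM.ex_one, h1])
          have h3 : (A₀ + 1) * w 0 ≤ v 0 * w 0 := Nat.mul_le_mul_right _ (by omega)
          have h4 := hw 0
          rw [add_mul, one_mul] at h3
          rw [mul_comm (w 0)]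
          omega
        · have h3 : A₀ * w 0 ≤ v 0 * w 0 := Nat.mul_le_mul_right _ hv1
          have h4 : 0 < w 1 * v 1 := Nat.mul_pos (hw 1) h1
          rw [mul_comm (w 0)]
          omega
      refine Finset.sum_eq_zero fun j hj => ?_
      split_ifs with h
      · rw [cone_eqU (fun _ => he) (lt_of_le_of_lt (Nat.sub_le _ _) hm) hw hwN (by omega) hI
          (hg1 w n v l hw hI) (Nat.mul_pos he (Finset.mem_Icc.1 hj).1), sub_self, mul_zero]
      · rfl
    · exact Or.inr h

end Key

open Key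

/-- **Key theorem, pole side.** -/
theorem ZY_mem_of_edges {F : P2} (hF : F ≠ 0) (hP : Par e D b s₀ s₁) {a A K : ℕ}
    (ha : 1 ≤ a) (hA : (A = 0 ∧ a = 1) ∨ (1 ≤ A ∧ ExactPow F 0 A))
    (hFA : ∀ v, MvPowerSeries.coeff v F ≠ 0 → A ≤ v 0 ∧ v ≠ ex A 0)
    (hK : 1 ≤ K) (hKs : -s₀ < K)
    (hx : ∀ A, ExactPow F 0 A → 0 < A → (a : ℚ) ≠ -s₁ * A)
    (hy : ∀ B, ExactPow F 1 B → 0 < B → (1 : ℚ) ≠ -s₁ * B)
    (hE : ∀ (p q A B : ℕ) (lam : ℂ) (R : Finset ℂ) (μ : ℂ → ℕ), IsEdge F p q A B lam R μ →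
      ((a * p + q : ℕ) : ℚ) ≠ -s₁ * (edgeN p q A B R μ : ℕ))
    (hsub : ∀ (p q A B : ℕ) (lam : ℂ) (R : Finset ℂ) (μ : ℂ → ℕ), IsEdge F p q A B lam R μ →
      ∀ c ∈ R, ∀ α β, p * α = q * β + 1 →
        ZY (MvPowerSeries.subst (kap p q α β c) F) e D b (a * p + q) (edgeN p q A B R μ) K ∈
          regularAt s₀) :
    ZY F e D b a A K ∈ regularAt s₀ := by
  classical
  obtain ⟨g, hg0, hgF, hg3, hg4, ι, hι, p, q, A', B, α, β, lam, R, R', μ, hEd, hR', hN', hab,
    key⟩ := ZY_formula hF hP.he hP.hD hP.hb hFA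
  rw [key a K ha hK]
  refine add_mem ?_ (sum_mem fun i _ => add_mem (add_mem (add_mem
    (cs_eq_mem hP _ (P1aux.edgeN_pos (hEd i)) ?_)
    (cs2_eq_mem hP _ (P1aux.edgeN_pos (hEd i)) ?_))
    (cs_lt_mem hP _ (P1aux.edgeN_pos (hEd i)) ?_)) (sub_mem
      (sum_mem fun c hc => hsub _ _ _ _ _ _ _ (hEd i) c hc _ _ (hab i))
      (sum_mem fun c hc => ?_)))
  · refine ZY_model_mem hg0 hP hg3 hK hKs ha ?_ (fun v hv => hFA v (hgF v hv)) ?_
    · rcases hA with h | ⟨h2, h3⟩
      · exact Or.inl h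
      · exact Or.inr ⟨h2, hx A h3 h2⟩
    · intro w N hw
      rcases hg4 w N hw with ⟨A'', k, hA, hA0, hk, rfl, rfl⟩ | ⟨B', k, hB, hB0, hk, rfl, rfl⟩ |
        ⟨p', q', A'', B'', lam', R'', μ', k, hE', hk, rfl, rfl⟩
      · intro h
        apply hx A'' hA hA0
        have hk' : (k : ℚ) ≠ 0 := by positivity
        apply mul_left_cancel₀ hk'
        simp only [Matrix.cons_val_zero, Matrix.cons_val_one, add_zero, Nat.cast_mul] at h
        linear_combination h
      · intro h
        apply hy B' hB hB0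
        have hk' : (k : ℚ) ≠ 0 := by positivity
        apply mul_left_cancel₀ hk'
        simp only [Matrix.cons_val_zero, Matrix.cons_val_one, mul_zero, zero_add,
          Nat.cast_mul] at h
        linear_combination h
      · intro h
        apply hE _ _ _ _ _ _ _ hE'
        have hk' : (k : ℚ) ≠ 0 := by positivity
        apply mul_left_cancel₀ hk'
        simp only [Matrix.cons_val_zero, Matrix.cons_val_one, Nat.cast_add, Nat.cast_mul] at h
        push_cast
        linear_combination h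
  · exact hE _ _ _ _ _ _ _ (hEd i)
  · exact hE _ _ _ _ _ _ _ (hEd i)
  · exact hE _ _ _ _ _ _ _ (hEd i)
  · have hap : 1 ≤ a * p i + q i := le_trans (hEd i).hq (Nat.le_add_left _ _)
    have hy1 := YOrd.sub (hR' i) hc (hab i)
    rw [hN' i] at hy1
    exact ZY_simple (P1aux.edgeN_pos (hEd i)) hy1 hP hap hK (hE _ _ _ _ _ _ _ (hEd i))

end YP

end MPb07157
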