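import Pool.Agent.Lib.MP_b07157_agYP.Defs
import Pool.Agent.Lib.MP_b07157_agU.M1

/-!
# The polynomial `z^D (g(x, y) + z^e)`
-/

noncomputable section

namespace MPb07157

open MvPolynomial

namespace YP

open PC SU

variable {e D b : ℕ} {s₀ s₁ : ℚ}

namespace Md1

section mono

variable {n : ℕ}

theorem wt_add (w : Fin n → ℕ) (u v : Fin n →₀ ℕ) : wt w (u + v) = wt w u + wt w v := by
  unfold wt
  rw [← Finset.sum_add_distrib]
  refine Finset.sum_congr rfl fun j _ => ?_
  rw [Finsupp.add_apply, mul_add]

theorem mem_support_mono {f : MvPolynomial (Fin n) ℂ} {σ v : Fin n →₀ ℕ} :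
    v ∈ (monomial σ (1 : ℂ) * f).support ↔ ∃ u ∈ f.support, v = σ + u := by
  rw [mem_support_iff, coeff_monomial_mul']
  constructor
  · intro h
    split_ifs at h with h1
    · refine ⟨v - σ, ?_, ?_⟩
      · rw [mem_support_iff]
        intro h2
        rw [h2, mul_zero] at h
        exact h rfl
      · rw [add_comm, tsub_add_cancel_of_le h1]
    · exact absurd rfl h
  · rintro ⟨u, hu, rfl⟩
    rw [if_pos le_self_add, add_tsub_cancel_left, one_mul]
    exact mem_support_iff.1 hu

theorem isMinWt_mono {f : MvPolynomial (Fin n) ℂ} {σ : Fin n →₀ ℕ} {w : Fin n → ℕ} {N : ℕ} :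
    IsMinWt (monomial σ (1 : ℂ) * f) w (wt w σ + N) ↔ IsMinWt f w N := by
  constructor
  · rintro ⟨h1, v, hv, h2⟩
    refine ⟨fun u hu => ?_, ?_⟩
    · have := h1 (σ + u) (mem_support_mono.2 ⟨u, hu, rfl⟩)
      rw [wt_add] at this
      omega
    · obtain ⟨u, hu, rfl⟩ := mem_support_mono.1 hv
      refine ⟨u, hu, ?_⟩
      rw [wt_add] at h2
      omega
  · rintro ⟨h1, v, hv, h2⟩
    refine ⟨fun u hu => ?_, σ + v, mem_support_mono.2 ⟨v, hv, rfl⟩, by rw [wt_add, h2]⟩
    obtain ⟨u', hu', rfl⟩ := mem_support_mono.1 hu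
    have := h1 u' hu'
    rw [wt_add]
    omega

theorem mem_face_mono {f : MvPolynomial (Fin n) ℂ} {σ v : Fin n →₀ ℕ} {w : Fin n → ℕ} {N : ℕ} :
    v ∈ face (monomial σ (1 : ℂ) * f) w (wt w σ + N) ↔ ∃ u ∈ face f w N, v = σ + u := by
  unfold face
  rw [Finset.mem_filter, mem_support_mono]
  constructor
  · rintro ⟨⟨u, hu, rfl⟩, h⟩
    rw [wt_add] at h
    exact ⟨u, Finset.mem_filter.2 ⟨hu, by omega⟩, rfl⟩
  · rintro ⟨u, hu, rfl⟩
    obtain ⟨h1, h2⟩ := Finset.mem_filter.1 hu
    exact ⟨⟨u, h1, rfl⟩, by rw [wt_add, h2]⟩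

theorem inForm_mono {f : MvPolynomial (Fin n) ℂ} {σ : Fin n →₀ ℕ} {w : Fin n → ℕ} {N : ℕ} :
    inForm (monomial σ (1 : ℂ) * f) (face (monomial σ (1 : ℂ) * f) w (wt w σ + N)) =
      monomial σ 1 * inForm f (face f w N) := by
  classical
  have hface : face (monomial σ (1 : ℂ) * f) w (wt w σ + N) =
      (face f w N).image (fun u => σ + u) := by
    ext v
    rw [mem_face_mono, Finset.mem_image]
    exact ⟨fun ⟨u, hu, h⟩ => ⟨u, hu, h.symm⟩, fun ⟨u, hu, h⟩ => ⟨u, hu, h.symm⟩⟩
  unfold inForm
  rw [hface, Finset.sum_image (fun x _ y _ h => add_left_cancel h), Finset.mul_sum]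
  refine Finset.sum_congr rfl fun u _ => ?_
  rw [coeff_monomial_mul, one_mul, monomial_mul, one_mul]

theorem nuf_mono {f : MvPolynomial (Fin n) ℂ} (hf : f ≠ 0) (σ : Fin n →₀ ℕ) (w : Fin n → ℕ) :
    nuf (monomial σ (1 : ℂ) * f) w = wt w σ + nuf f w := by
  have hm : (monomial σ (1 : ℂ) * f) ≠ 0 :=
    mul_ne_zero (by rw [Ne, monomial_eq_zero]; exact one_ne_zero) hf
  exact IsMinWt.eq (isMinWt_nuf hm w) (isMinWt_mono.2 (isMinWt_nuf hf w))

theorem nondeg_mono {f : MvPolynomial (Fin n) ℂ} (hf : f ≠ 0) (σ : Fin n →₀ ℕ) (w : Fin n → ℕ)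
    (h : NondegAt f (face f w (nuf f w))) :
    NondegAt (monomial σ (1 : ℂ) * f)
      (face (monomial σ (1 : ℂ) * f) w (nuf (monomial σ (1 : ℂ) * f) w)) := by
  intro u hu hev
  rw [nuf_mono hf, inForm_mono] at hev ⊢
  rw [map_mul] at hev
  have hσ : eval u (monomial σ (1 : ℂ)) ≠ 0 := by
    rw [eval_monomial, one_mul]
    exact Finset.prod_ne_zero_iff.2 fun j _ => pow_ne_zero _ (hu j)
  have hev' := (mul_eq_zero.1 hev).resolve_left hσ
  obtain ⟨j, hj⟩ := h u hu hev'
  refine ⟨j, ?_⟩
  rw [pderiv_mul, map_add, map_mul, map_mul, hev', mul_zero, zero_add]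
  exact mul_ne_zero hσ hj

end mono

theorem susp_ne_zero' {r : ℕ} {g : MvPolynomial (Fin 2) ℂ} (hg : g ≠ 0) {e : Fin r → ℕ}
    (he : ∀ i, 0 < e i) : susp g e ≠ 0 := by
  intro h
  obtain ⟨u, hu⟩ := MvPolynomial.support_nonempty.2 hg
  apply mem_support_iff.1 hu
  rw [← M1.coeff_susp_emb g he u, h, coeff_zero]

theorem susp_nondeg {r : ℕ} {g : MvPolynomial (Fin 2) ℂ} (hg : g ≠ 0) {e : Fin r → ℕ}
    (he : ∀ i, 0 < e i) (hnd : ∀ a : Fin 2 → ℕ, (∀ j, 1 ≤ a j) → NondegAt g (face g a (nuf g a)))
    (b : Fin (2 + r) → ℕ) (hb : ∀ j, 1 ≤ b j) :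
    NondegAt (susp g e) (face (susp g e) b (nuf (susp g e) b)) := by
  classical
  have hs := susp_ne_zero' hg he
  intro u hu hev
  obtain ⟨hmin, v, hv, hvN⟩ := isMinWt_nuf hs b
  set N := nuf (susp g e) b with hN
  rw [M1.inForm_eq g he] at hev ⊢
  by_cases hi : ∃ i, b (Fin.natAdd 2 i) * e i = N
  · obtain ⟨i, hi⟩ := hi
    refine ⟨Fin.natAdd 2 i, ?_⟩
    have hd1 : pderiv (Fin.natAdd 2 i) (rename (Fin.castAdd r)
        (inForm g (face g (fun j => b (Fin.castAdd r j)) N))) = 0 := by
      apply pderiv_eq_zero_of_notMem_vars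
      intro hmem
      obtain ⟨j, -, hj⟩ := Finset.mem_image.1 (vars_rename _ _ hmem)
      have := congrArg Fin.val hj
      simp at this
      omega
    rw [map_add, hd1, zero_add, map_sum, Finset.sum_eq_single i]
    · rw [pderiv_pow, pderiv_X_self, mul_one, map_mul, map_pow, eval_X, map_natCast]
      exact mul_ne_zero (Nat.cast_ne_zero.2 (he i).ne') (pow_ne_zero _ (hu _))
    · intro i' _ hi'
      rw [pderiv_pow, pderiv_X_of_ne, mul_zero]
      rw [Ne, M1.single_natAdd_inj]
      exact hi'
    · intro h
      exact absurd (Finset.mem_filter.2 ⟨Finset.mem_univ i, hi⟩) h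
  · push Not at hi
    have hemp : (Finset.univ.filter fun i => b (Fin.natAdd 2 i) * e i = N) = ∅ := by
      rw [Finset.filter_eq_empty_iff]
      intro i _
      exact hi i
    rw [hemp, Finset.sum_empty, add_zero] at hev ⊢
    have hN' : N = nuf g (fun j => b (Fin.castAdd r j)) := by
      refine IsMinWt.eq (f := g) ⟨?_, ?_⟩ (isMinWt_nuf hg _)
      · intro v' hv'
        rw [← M1.wt_emb]
        apply hmin
        rw [mem_support_iff, M1.coeff_susp_emb g he]
        exact mem_support_iff.1 hv'
      · have hvf : v ∈ face (susp g e) b N := Finset.mem_filter.2 ⟨hv, hvN⟩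
        rw [M1.face_eq g he, hemp, Finset.image_empty, Finset.union_empty,
          Finset.mem_image] at hvf
        obtain ⟨v', hv', -⟩ := hvf
        exact ⟨v', (Finset.mem_filter.1 hv').1, (Finset.mem_filter.1 hv').2⟩
    rw [hN'] at hev ⊢
    rw [eval_rename] at hev
    obtain ⟨j, hj⟩ := hnd (fun j => b (Fin.castAdd r j)) (fun j => hb _)
      (u ∘ Fin.castAdd r) (fun j => hu _) hev
    refine ⟨Fin.castAdd r j, ?_⟩
    rw [pderiv_rename (Fin.castAdd_injective 2 r), eval_rename]
    exact hj

theorem zg_eq (g : MvPolynomial (Fin 2) ℂ) (e D : ℕ) :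
    zg g e D = monomial (Finsupp.single (Fin.natAdd 2 0) D) 1 * susp g (eo e) := by
  unfold zg
  rw [X_pow_eq_monomial]

end Md1

open Md1 in
theorem zg_ne_zero {g : MvPolynomial (Fin 2) ℂ} (hg : g ≠ 0) (he : 0 < e) (D : ℕ) :
    zg g e D ≠ 0 := by
  unfold zg
  exact mul_ne_zero (pow_ne_zero _ (X_ne_zero _)) (susp_ne_zero' hg fun _ => he)

open Md1 in
theorem Zw_zg_mem {g : MvPolynomial (Fin 2) ℂ} (hg : g ≠ 0) (hP : Par e D b s₀ s₁)
    (hnd : ∀ a : Fin 2 → ℕ, (∀ j, 1 ≤ a j) → NondegAt g (face g a (nuf g a)))
    {K : ℕ} (hK : 1 ≤ K) (hKs : -s₀ < K) {a : ℕ} (ha : 1 ≤ a)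
    (hfac : ∀ (w : Fin 2 → ℕ) (N : ℕ), IsFacetWt g w N →
      ((a * w 0 + w 1 : ℕ) : ℚ) ≠ -s₁ * N) :
    Zw (zg g e D) 1 K (cwz a b) ∈ regularAt s₀ := by
  classical
  have he : 0 < e := hP.he
  have he' : ∀ i : Fin 1, 0 < eo e i := fun _ => he
  have hs : susp g (eo e) ≠ 0 := susp_ne_zero' hg he'
  obtain ⟨u₀, hu₀⟩ := MvPolynomial.support_nonempty.2 hg
  refine Zw_mem_regularAt (zg_ne_zero hg he D) le_rfl ?_ hP.h1 hK hKs (cwz a b) ?_
  · intro w hw
    rw [zg_eq]
    exact nondeg_mono hs _ w (susp_nondeg hg he' hnd w hw)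
  · intro w N hw
    set z : Fin (2 + 1) := Fin.natAdd 2 0 with hz
    set f := susp g (eo e) with hf
    set σ : Fin (2 + 1) →₀ ℕ := Finsupp.single z D with hσ
    have hσw : wt w σ = w z * D := M1.wt_single w 0 D
    obtain ⟨hmin, hN0, hsp⟩ := hw
    rw [zg_eq, ← hz, ← hσ, ← hf] at hmin hsp
    -- the minimal weight of `susp g e`
    obtain ⟨N', rfl⟩ : ∃ N', N = wt w σ + N' := by
      obtain ⟨-, v, hv, hvN⟩ := hmin
      obtain ⟨u, hu, rfl⟩ := mem_support_mono.1 hv
      exact ⟨wt w u, by rw [← hvN, wt_add]⟩
    have hmin' := isMinWt_mono.1 hmin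
    obtain ⟨hm1, v₁, hv₁, hv₁N⟩ := hmin'
    have hsp' : ∀ y : Fin (2 + 1) → ℤ, (∀ j, w j = 0 → y j = 0) →
        (∀ v ∈ face f w N', y z * D + ∑ j, y j * (v j : ℤ) = 0) → y = 0 := by
      intro y hy hyv
      refine hsp y hy ?_
      intro v hv
      obtain ⟨u, hu, rfl⟩ := mem_face_mono.1 hv
      rw [← hyv u hu]
      simp only [Finsupp.add_apply, Nat.cast_add, mul_add, Finset.sum_add_distrib]
      congr 1
      rw [Finset.sum_eq_single z]
      · rw [hσ, Finsupp.single_eq_same]
      · intro j _ hj
        rw [hσ, Finsupp.single_apply, if_neg (fun h => hj h.symm), Nat.cast_zero, mul_zero]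
      · intro h
        exact absurd (Finset.mem_univ _) h
    -- the weight of the plane
    by_cases hpl : ∀ j : Fin 2, w (Fin.castAdd 1 j) = 0
    · -- `w = (0, 0, k)`
      have hN' : N' = 0 := by
        have h2 : N' ≤ wt w (M1.emb 1 u₀) := by
          apply hm1
          rw [mem_support_iff, hf, M1.coeff_susp_emb g he']
          exact mem_support_iff.1 hu₀
        rw [M1.wt_emb] at h2
        unfold wt at h2
        simp only [hpl, zero_mul, Finset.sum_const_zero] at h2
        omega
      rw [hN', hσw, add_zero]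
      rw [Fin.sum_univ_add]
      simp only [hpl, mul_zero, Finset.sum_const_zero, zero_add, Fin.sum_univ_one]
      have hk : w z ≠ 0 := by
        intro h0
        rw [hN', hσw, h0] at hN0
        simp at hN0
      have hb : 1 + (b - 1) = b := by have := hP.hb; omega
      rw [← hz]
      simp only [cwz, hz, Fin.append_right, hb]
      push_cast
      intro heq
      apply hP.hbD
      have hk' : ((w z : ℕ) : ℚ) ≠ 0 := Nat.cast_ne_zero.2 hk
      apply mul_right_cancel₀ hk'
      rw [hz, show (Fin.natAdd 2 (0 : Fin 1) : Fin (2 + 1)) = 2 from rfl]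
      linear_combination heq
    · push Not at hpl
      obtain ⟨j₀, hj₀⟩ := hpl
      -- the weight of `z`
      have hzz : w z * e = N' := by
        by_contra hne
        have hge : N' ≤ w z * e := by
          rw [← M1.wt_single w 0 e]
          apply hm1
          rw [mem_support_iff, hf]
          have := M1.coeff_susp_single g he' 0
          rw [this]
          exact one_ne_zero
        have hw0 : w z ≠ 0 := by
          intro h
          rw [h, zero_mul] at hge hne
          omega
        have := hsp' (Fin.append (fun j : Fin 2 => (D : ℤ) * w (Fin.castAdd 1 j))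
          (fun _ : Fin 1 => -(N' : ℤ))) ?_ ?_
        · have h2 := congrFun this (Fin.castAdd 1 j₀)
          rw [Fin.append_left] at h2
          have hD := hP.hD
          have h3 : (D : ℤ) * w (Fin.castAdd 1 j₀) ≠ 0 :=
            mul_ne_zero (by exact_mod_cast hD.ne') (by exact_mod_cast hj₀)
          exact h3 h2
        · intro j
          refine Fin.addCases (fun j => ?_) (fun i => ?_) j
          · intro h
            rw [Fin.append_left, h]
            simp
          · intro h
            exfalso
            apply hw0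
            rw [hz, show (0 : Fin 1) = i from Subsingleton.elim _ _]
            exact h
        · intro v' hv'
          rw [hf, M1.face_eq g he', Finset.mem_union, Finset.mem_image, Finset.mem_image] at hv'
          rcases hv' with ⟨u, hu, rfl⟩ | ⟨i', hi', rfl⟩
          · rw [Fin.sum_univ_add, hz]
            simp only [Fin.append_left, Fin.append_right, M1.emb_castAdd, M1.emb_natAdd,
              Nat.cast_zero, mul_zero, Finset.sum_const_zero, add_zero]
            have hwt := (Finset.mem_filter.1 hu).2
            unfold wt at hwt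
            have hwt' : ∑ j : Fin 2, (w (Fin.castAdd 1 j) : ℤ) * (u j : ℤ) = N' := by
              exact_mod_cast hwt
            rw [← hwt']
            rw [Fin.sum_univ_two, Fin.sum_univ_two]
            ring
          · exfalso
            apply hne
            have := (Finset.mem_filter.1 hi').2
            rw [hz, show (0 : Fin 1) = i' from Subsingleton.elim _ _]
            exact this
      have hN'0 : 0 < N' := by
        rcases Nat.eq_zero_or_pos N' with h | h
        · exfalso
          rw [h] at hzz
          have hw0 : w z = 0 := by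
            rcases Nat.mul_eq_zero.1 hzz with h' | h'
            · exact h'
            · omega
          rw [hσw, hw0, h] at hN0
          simp at hN0
        · exact h
      -- a vertex in the plane
      have hex : ∃ u ∈ g.support, wt (fun j => w (Fin.castAdd 1 j)) u = N' := by
        by_contra hne
        push Not at hne
        have := hsp' (fun k => if k = Fin.castAdd 1 j₀ then 1 else 0) ?_ ?_
        · have h2 := congrFun this (Fin.castAdd 1 j₀)
          simp at h2
        · intro k hk
          rw [if_neg]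
          rintro rfl
          exact hj₀ hk
        · intro v' hv'
          rw [hf, M1.face_eq g he', Finset.mem_union, Finset.mem_image, Finset.mem_image] at hv'
          have hz0 : z ≠ Fin.castAdd 1 j₀ := by
            intro h
            have := congrArg Fin.val h
            simp [hz] at this
            omega
          have : v' (Fin.castAdd 1 j₀) = 0 := by
            rcases hv' with ⟨u, hu, rfl⟩ | ⟨i', hi', rfl⟩
            · exact absurd (Finset.mem_filter.1 hu).2 (hne u (Finset.mem_filter.1 hu).1)
            · rw [Finsupp.single_apply, if_neg]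
              intro h
              have := congrArg Fin.val h
              simp at this
              omega
          rw [if_neg hz0, zero_mul, zero_add, Finset.sum_eq_single (Fin.castAdd 1 j₀), this]
          · simp
          · intro k _ hk
            rw [if_neg hk, zero_mul]
          · intro h
            exact absurd (Finset.mem_univ _) h
      have hfw : IsFacetWt g (fun j => w (Fin.castAdd 1 j)) N' := by
        refine ⟨⟨fun u hu => ?_, hex⟩, hN'0, ?_⟩
        · rw [← M1.wt_emb]
          apply hm1
          rw [mem_support_iff, hf, M1.coeff_susp_emb g he']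
          exact mem_support_iff.1 hu
        · intro y hy hy'
          have := hsp' (Fin.append y (fun _ => 0)) ?_ ?_
          · funext j
            have h2 := congrFun this (Fin.castAdd 1 j)
            rw [Fin.append_left] at h2
            exact h2
          · intro j
            refine Fin.addCases (fun j => ?_) (fun i => ?_) j
            · intro h
              rw [Fin.append_left]
              exact hy j h
            · intro _
              rw [Fin.append_right]
          · intro v' hv'
            rw [Fin.sum_univ_add, hz]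
            simp only [Fin.append_left, Fin.append_right, zero_mul, Finset.sum_const_zero,
              add_zero, zero_add]
            rw [hf, M1.face_eq g he', Finset.mem_union, Finset.mem_image,
              Finset.mem_image] at hv'
            rcases hv' with ⟨u, hu, rfl⟩ | ⟨i', hi', rfl⟩
            · simp only [M1.emb_castAdd]
              exact hy' u hu
            · apply Finset.sum_eq_zero
              intro j _
              rw [Finsupp.single_apply, if_neg, Nat.cast_zero, mul_zero]
              intro h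
              have := congrArg Fin.val h
              simp at this
              omega
      intro heq
      apply hfac _ N' hfw
      have hsum : ((∑ j, (1 + cwz a b j) * w j : ℕ) : ℚ) =
          ((a * w (Fin.castAdd 1 0) + w (Fin.castAdd 1 1) : ℕ) : ℚ) + b * w z := by
        have ha' : 1 + (a - 1) = a := by omega
        have hb : 1 + (b - 1) = b := by have := hP.hb; omega
        rw [Fin.sum_univ_add]
        simp only [cwz, Fin.append_left, Fin.append_right, Fin.sum_univ_two, Fin.sum_univ_one,
          Matrix.cons_val_zero, Matrix.cons_val_one, ha', hb, ← hz]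
        push_cast
        ring
      rw [hsum, hσw] at heq
      have heQ : (e : ℚ) ≠ 0 := Nat.cast_ne_zero.2 he.ne'
      have hzz' : (w z : ℚ) * e = N' := by exact_mod_cast hzz
      have hs1 := hP.hs
      apply mul_left_cancel₀ heQ
      push_cast at heq ⊢
      linear_combination (e : ℚ) * heq + (-b - s₀ * D) * hzz' + (N' : ℚ) * hs1

end YP

end MPb07157
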