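import Pool.Agent.Lib.MP_b07157_agYP.Defs
import Pool.Agent.Lib.MP_b07157_agU.M2

/-!
# Zeta functions of polynomials
-/

noncomputable section

namespace MPb07157

open MvPolynomial

namespace YP

open PC SU M2h

variable {e D : ℕ}

namespace Md2

/-- The arcs with `ord z = j`. -/
def Zg (N j : ℕ) : Set (Fin (2 + 1) × Fin N → ℂ) :=
  {γ | (∀ l : Fin N, (l : ℕ) < j → γ (Fin.natAdd 2 0, l) = 0) ∧
    ∀ h : j < N, γ (Fin.natAdd 2 0, ⟨j, h⟩) ≠ 0}

theorem Strat_subset_Zg {N : ℕ} (a : Fin (2 + 1) → ℕ) :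
    Strat N a ⊆ Zg N (a (Fin.natAdd 2 0)) := by
  rintro γ ⟨h1, h2⟩
  refine ⟨fun j hj => h1 _ j hj, fun h => ?_⟩
  have h3 := h2 _ h
  unfold lead0 at h3
  rwa [dif_pos h] at h3

theorem Zg_eq {N i j : ℕ} {γ : Fin (2 + 1) × Fin N → ℂ} (hi : i ≤ N) (hj : j ≤ N)
    (h1 : γ ∈ Zg N i) (h2 : γ ∈ Zg N j) : i = j := by
  rcases lt_trichotomy i j with h | h | h
  · exact absurd (h2.1 ⟨i, by omega⟩ h) (h1.2 (by omega))
  · exact h
  · exact absurd (h1.1 ⟨j, by omega⟩ h) (h2.2 (by omega))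

theorem arcs_XZ (f : MvPolynomial (Fin (2 + 1)) ℂ) {N m k j : ℕ} (hN : 1 ≤ N) (hk : k ≤ N)
    (hj : j ≤ N) :
    arcs f N m ∩ Start (2 + 1) 1 N ∩ (Xg 1 N k ∩ Zg N j) =
      ⋃ a ∈ (Fintype.piFinset (fun _ : Fin (2 + 1) => Finset.Icc 1 N)).filter
        (fun a => (a (Fin.castAdd 1 0), a (Fin.natAdd 2 0)) = (k, j)),
          (arcs f N m ∩ Strat N a) := by
  rw [arcs_eq_iUnion f m hN]
  ext γ
  simp only [Set.mem_inter_iff, Set.mem_iUnion, exists_prop, Finset.mem_filter, Prod.mk.injEq]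
  constructor
  · rintro ⟨⟨a, ha, h1, h2⟩, h3, h5⟩
    refine ⟨a, ⟨ha, ?_, ?_⟩, h1, h2⟩
    · have h4 := (Finset.mem_Icc.1 (Fintype.mem_piFinset.1 ha (Fin.castAdd 1 0))).2
      exact Xg_eq h4 hk (Strat_subset_Xg a h2) h3
    · have h4 := (Finset.mem_Icc.1 (Fintype.mem_piFinset.1 ha (Fin.natAdd 2 0))).2
      exact Zg_eq h4 hj (Strat_subset_Zg a h2) h5
  · rintro ⟨a, ⟨ha, ha2, ha3⟩, h1, h2⟩
    refine ⟨⟨a, ha, h1, h2⟩, ?_, ?_⟩
    · rw [← ha2]
      exact Strat_subset_Xg a h2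
    · rw [← ha3]
      exact Strat_subset_Zg a h2

theorem clsM_arcs_XZ (f : MvPolynomial (Fin (2 + 1)) ℂ) {N m k j : ℕ} (hN : 1 ≤ N) (hk : k ≤ N)
    (hj : j ≤ N) :
    clsM (arcs f N m ∩ Start (2 + 1) 1 N ∩ (Xg 1 N k ∩ Zg N j)) =
      ∑ a ∈ (Fintype.piFinset (fun _ : Fin (2 + 1) => Finset.Icc 1 N)).filter
        (fun a => (a (Fin.castAdd 1 0), a (Fin.natAdd 2 0)) = (k, j)),
          clsM (arcs f N m ∩ Strat N a) := by
  unfold clsM
  rw [arcs_XZ f hN hk hj, cls_biUnion, map_sum]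
  · intro a _
    exact (isConstr_arcs f N m).inter (isConstr_Strat N a)
  · intro a ha b hb hab
    rw [Finset.mem_filter, Fintype.mem_piFinset] at ha hb
    exact (disjoint_Strat (fun j => (Finset.mem_Icc.1 (ha.1 j)).2)
      (fun j => (Finset.mem_Icc.1 (hb.1 j)).2) hab).mono Set.inter_subset_right
      Set.inter_subset_right

/-- The order of `z^D (g + z^e)`. -/
theorem order_zg (g : MvPolynomial (Fin 2) ℂ) (e D : ℕ) {N j : ℕ} (hj : j < N)
    {x : Fin (2 + 1) × Fin N → ℂ} (hx : x ∈ Zg N j) (m : ℕ) :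
    (aeval (arc x) (zg g e D) : PowerSeries ℂ).order = (D * j + m : ℕ) ↔
      (aeval (arc x) (susp g (eo e)) : PowerSeries ℂ).order = m := by
  obtain ⟨U, hU, hU0⟩ : ∃ U : PowerSeries ℂ, arc x (Fin.natAdd 2 0) = PowerSeries.X ^ j * U ∧
      PowerSeries.constantCoeff U ≠ 0 := by
    have h1 : (PowerSeries.X : PowerSeries ℂ) ^ j ∣ arc x (Fin.natAdd 2 0) := by
      rw [PowerSeries.X_pow_dvd_iff]
      intro l hl
      rw [coeff_arc]
      split_ifs with h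
      · exact hx.1 ⟨l, h⟩ hl
      · rfl
    obtain ⟨U, hU⟩ := h1
    refine ⟨U, hU, ?_⟩
    have h2 : PowerSeries.coeff j (arc x (Fin.natAdd 2 0)) ≠ 0 := by
      rw [coeff_arc, dif_pos hj]
      exact hx.2 hj
    rw [hU, PowerSeries.coeff_X_pow_mul', if_pos le_rfl, Nat.sub_self,
      PowerSeries.coeff_zero_eq_constantCoeff_apply] at h2
    exact h2
  have h1 : (aeval (arc x) (zg g e D) : PowerSeries ℂ) =
      PowerSeries.X ^ (D * j) * (U ^ D * aeval (arc x) (susp g (eo e))) := by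
    unfold zg
    rw [map_mul, map_pow, aeval_X, hU, mul_pow, ← pow_mul, mul_comm j D, mul_assoc]
  have h2 : U.order = 0 := by
    have h3 := (PowerSeries.order_eq_nat (φ := U) (n := 0)).2
      ⟨by rw [PowerSeries.coeff_zero_eq_constantCoeff_apply]; exact hU0, fun i hi => by omega⟩
    simpa using h3
  have h3 : (U ^ D).order = 0 := by rw [PowerSeries.order_pow, h2, smul_zero]
  rw [h1, PowerSeries.order_mul, PowerSeries.order_mul, h3, zero_add, PowerSeries.order_X_pow,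
    Nat.cast_add]
  exact (ENat.add_right_injective_of_ne_top (ENat.natCast_ne_top (D * j))).eq_iff

theorem dvd_zg (g : MvPolynomial (Fin 2) ℂ) (e D : ℕ) {N j : ℕ}
    {x : Fin (2 + 1) × Fin N → ℂ} (hx : x ∈ Zg N j) :
    (PowerSeries.X : PowerSeries ℂ) ^ (D * j) ∣ (aeval (arc x) (zg g e D) : PowerSeries ℂ) := by
  have h1 : (PowerSeries.X : PowerSeries ℂ) ^ j ∣ arc x (Fin.natAdd 2 0) := by
    rw [PowerSeries.X_pow_dvd_iff]
    intro l hl
    rw [coeff_arc]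
    split_ifs with h
    · exact hx.1 ⟨l, h⟩ hl
    · rfl
  unfold zg
  rw [map_mul, map_pow, aeval_X, mul_comm D j, pow_mul]
  exact Dvd.dvd.mul_right (pow_dvd_pow_of_dvd h1 D) _

/-- The sets of jets in the two notations. -/
theorem eqv_jset (g : MvPolynomial (Fin 2) ℂ) (he : 0 < e) {N m k j : ℕ} (hj : 1 ≤ j)
    (hjN : j < N) (hDj : D * j ≤ m) :
    {x : Fin (2 + 1) × Fin N → ℂ | (fun i => x (eqv 1 N i)) ∈
      jset (g : P2) (eo e) N (m - D * j) (Start 2 1 N ∩ Xo N k) (Ug (eo e) N (e * j))} =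
      arcs (zg g e D) N m ∩ Start (2 + 1) 1 N ∩ (Xg 1 N k ∩ Zg N j) := by
  ext x
  simp only [jset, Set.mem_ofPred_eq, val_eqv, Set.mem_inter_iff, arcs]
  have hZ : zP (fun i => x (eqv 1 N i)) ∈ Ug (eo e) N (e * j) ↔ x ∈ Zg N j := by
    constructor
    · rintro ⟨h1, i, l, hl, h2⟩
      have h3 : (l : ℕ) = j := Nat.eq_of_mul_eq_mul_left he hl
      have h4 : l = ⟨j, hjN⟩ := Fin.ext h3
      refine ⟨fun l' hl' => h1 0 l' (Nat.mul_lt_mul_of_pos_left hl' he), fun _ => ?_⟩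
      rw [h4, Subsingleton.elim i 0] at h2
      exact h2
    · rintro ⟨h1, h2⟩
      refine ⟨fun i l hl => ?_, 0, ⟨j, hjN⟩, rfl, h2 hjN⟩
      rw [Subsingleton.elim i 0]
      exact h1 l (Nat.lt_of_mul_lt_mul_left hl)
  have hS : x ∈ Zg N j → ((xyP (fun i => x (eqv 1 N i)) ∈ Start 2 1 N) ↔
      x ∈ Start (2 + 1) 1 N) := by
    intro hx
    constructor
    · intro h1 i k hk
      induction i using Fin.addCases with
      | left i => exact h1 i k hk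
      | right i =>
        rw [Subsingleton.elim i 0]
        exact hx.1 k (by omega)
    · exact fun h i k hk => h _ k hk
  have hX : xyP (fun i => x (eqv 1 N i)) ∈ Xo N k ↔ x ∈ Xg 1 N k := Iff.rfl
  rw [hZ, hX]
  constructor
  · rintro ⟨⟨h1, h2⟩, h3, h4⟩
    refine ⟨⟨?_, (hS h3).1 h1⟩, h2, h3⟩
    have h5 := (order_zg g e D hjN h3 (m - D * j)).2 h4
    rwa [Nat.add_sub_cancel' hDj] at h5
  · rintro ⟨⟨h1, h2⟩, h3, h4⟩
    refine ⟨⟨(hS h4).2 h2, h3⟩, h4, (order_zg g e D hjN h4 (m - D * j)).1 ?_⟩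
    rw [Nat.add_sub_cancel' hDj]
    exact h1

theorem clsM_jset (g : MvPolynomial (Fin 2) ℂ) (he : 0 < e) {N m k j : ℕ} (hm : m < N)
    (hj : 1 ≤ j) (hjN : j < N) (hDj : D * j ≤ m) :
    clsM (arcs (zg g e D) N m ∩ Start (2 + 1) 1 N ∩ (Xg 1 N k ∩ Zg N j)) =
      clsM (jset (g : P2) (eo e) N (m - D * j) (Start 2 1 N ∩ Xo N k)
        (Ug (eo e) N (e * j))) := by
  have hc : IsConstr (jset (g : P2) (eo e) N (m - D * j) (Start 2 1 N ∩ Xo N k)
      (Ug (eo e) N (e * j))) :=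
    isConstr_jset (g : P2) (eo e) (lt_of_le_of_lt (Nat.sub_le _ _) hm)
      ((isConstr_Start 2 1 N).inter (isConstr_Xo N k)) Set.inter_subset_left
      (isConstr_Ug (eo e) N _)
  unfold clsM
  rw [← eqv_jset g he hj hjN hDj, cls_equiv (eqv 1 N) hc]

theorem clsM_empty (g : MvPolynomial (Fin 2) ℂ) {N m k j : ℕ} (hDj : m < D * j) :
    clsM (arcs (zg g e D) N m ∩ Start (2 + 1) 1 N ∩ (Xg 1 N k ∩ Zg N j)) = 0 := by
  have h : arcs (zg g e D) N m ∩ Start (2 + 1) 1 N ∩ (Xg 1 N k ∩ Zg N j) = ∅ := by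
    rw [Set.eq_empty_iff_forall_notMem]
    rintro x ⟨⟨h1, -⟩, -, h2⟩
    have h3 := dvd_zg g e D h2
    rw [PowerSeries.X_pow_dvd_iff] at h3
    have h4 : (aeval (arc x) (zg g e D) : PowerSeries ℂ).order = m := h1
    rw [PowerSeries.order_eq_nat] at h4
    exact h4.1 (h3 m hDj)
  unfold clsM
  rw [h, cls_empty, map_zero]

theorem cwz_sum (a b : ℕ) (w : Fin (2 + 1) → ℕ) :
    ∑ j, cwz a b j * w j = (a - 1) * w (Fin.castAdd 1 0) + (b - 1) * w (Fin.natAdd 2 0) := by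
  rw [Fin.sum_univ_add, Fin.sum_univ_two]
  have h1 : ∀ i : Fin 1, cwz a b (Fin.natAdd 2 i) = b - 1 := fun i => by
    rw [cwz, Fin.append_right]
  have h2 : cwz a b (Fin.castAdd 1 0) = a - 1 := by
    rw [cwz, Fin.append_left]
    rfl
  have h3 : cwz a b (Fin.castAdd 1 1) = 0 := by
    rw [cwz, Fin.append_left]
    rfl
  rw [h2, h3]
  simp [h1]

/-- The coefficients of `Zw` with the sets of jets. -/
theorem coeff_Zw_zg (g : MvPolynomial (Fin 2) ℂ) (he : 0 < e) (hD : 0 < D)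
    (b a : ℕ) {K : ℕ} (hK : 1 ≤ K) (m : ℕ) :
    PowerSeries.coeff m (Zw (zg g e D) 1 K (cwz a b)) =
      ∑ k ∈ Finset.Icc 1 (K * (m + 1)), ∑ j ∈ Finset.Icc 1 (K * (m + 1)),
        if D * j ≤ m then P1aux.Lp ((a - 1) * k + (b - 1) * j) *
          muJ (g : P2) (eo e) (K * (m + 1)) (m - D * j)
            (Start 2 1 (K * (m + 1)) ∩ Xo (K * (m + 1)) k)
            (Ug (eo e) (K * (m + 1)) (e * j)) else 0 := by
  classical
  have hm : m < K * (m + 1) := by nlinarith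
  unfold Zw
  rw [PowerSeries.coeff_mk]
  rw [← Finset.sum_fiberwise_of_maps_to
    (g := fun b : Fin (2 + 1) → ℕ => (b (Fin.castAdd 1 0), b (Fin.natAdd 2 0)))
    (t := Finset.Icc 1 (K * (m + 1)) ×ˢ Finset.Icc 1 (K * (m + 1))), Finset.sum_product]
  · refine Finset.sum_congr rfl fun k hk => Finset.sum_congr rfl fun j hj => ?_
    have hj1 := (Finset.mem_Icc.1 hj).1
    have key : ∑ c ∈ (Fintype.piFinset (fun _ : Fin (2 + 1) => Finset.Icc 1 (K * (m + 1)))).filter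
        (fun c => (c (Fin.castAdd 1 0), c (Fin.natAdd 2 0)) = (k, j)),
        ((LU ^ (-((∑ j, cwz a b j * c j : ℕ) : ℤ)) : Motˣ) : Mot) *
        (((LU ^ ((2 + 1) * (K * (m + 1))))⁻¹ : Motˣ) *
          clsM (arcs (zg g e D) (K * (m + 1)) m ∩ Strat (K * (m + 1)) c)) =
        P1aux.Lp ((a - 1) * k + (b - 1) * j) * (((LU ^ ((2 + 1) * (K * (m + 1))))⁻¹ : Motˣ) *
          clsM (arcs (zg g e D) (K * (m + 1)) m ∩ Start (2 + 1) 1 (K * (m + 1)) ∩
            (Xg 1 (K * (m + 1)) k ∩ Zg (K * (m + 1)) j))) := by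
      rw [clsM_arcs_XZ _ (by omega) (Finset.mem_Icc.1 hk).2 (Finset.mem_Icc.1 hj).2,
        Finset.mul_sum, Finset.mul_sum]
      refine Finset.sum_congr rfl fun c hc => ?_
      rw [Finset.mem_filter, Prod.mk.injEq] at hc
      rw [cwz_sum, hc.2.1, hc.2.2]
      rfl
    rw [key]
    by_cases hDj : D * j ≤ m
    · have hjN : j < K * (m + 1) := by
        have := Nat.le_mul_of_pos_left j hD
        omega
      rw [if_pos hDj, clsM_jset g he hm hj1 hjN hDj]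
      rfl
    · rw [if_neg hDj, clsM_empty g (by omega), mul_zero, mul_zero]
  · intro b hb
    rw [Fintype.mem_piFinset] at hb
    exact Finset.mem_product.2 ⟨hb _, hb _⟩

end Md2

open Md2

theorem ZY_zero (g : MvPolynomial (Fin 2) ℂ) (he : 0 < e) (hD : 0 < D) (b a : ℕ) {K : ℕ}
    (hK : 1 ≤ K) : ZY (g : P2) e D b a 0 K = Zw (zg g e D) 1 K (cwz a b) := by
  ext m
  rw [coeff_Zw_zg g he hD b a hK, ZY, PowerSeries.coeff_mk]
  refine Finset.sum_congr rfl fun k _ => Finset.sum_congr rfl fun j hj => ?_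
  have hj1 := Nat.mul_pos he (Finset.mem_Icc.1 hj).1
  by_cases h : D * j ≤ m
  · rw [if_pos h, if_pos ⟨by rw [zero_mul]; exact hj1, h⟩]
  · rw [if_neg h, if_neg fun h2 => h h2.2]

theorem ZY_sub_eq {g₁ g₂ : MvPolynomial (Fin 2) ℂ} (he : 0 < e) (hD : 0 < D) (b : ℕ) {A : ℕ}
    (hg₁ : ∀ v ∈ g₁.support, A ≤ v 0 ∧ v ≠ ex A 0) (hg₂ : ∀ v ∈ g₂.support, A ≤ v 0 ∧ v ≠ ex A 0)
    (a : ℕ) {K : ℕ} (hK : 1 ≤ K) :
    ZY (g₁ : P2) e D b a A K - ZY (g₂ : P2) e D b a A K =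
      Zw (zg g₁ e D) 1 K (cwz a b) - Zw (zg g₂ e D) 1 K (cwz a b) := by
  ext m
  have hm : m < K * (m + 1) := by nlinarith
  rw [map_sub, map_sub, coeff_Zw_zg g₁ he hD b a hK, coeff_Zw_zg g₂ he hD b a hK, ZY, ZY,
    PowerSeries.coeff_mk, PowerSeries.coeff_mk, ← Finset.sum_sub_distrib,
    ← Finset.sum_sub_distrib]
  refine Finset.sum_congr rfl fun k _ => ?_
  rw [← Finset.sum_sub_distrib, ← Finset.sum_sub_distrib]
  refine Finset.sum_congr rfl fun j hj => ?_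
  have hj1 := Nat.mul_pos he (Finset.mem_Icc.1 hj).1
  by_cases h : D * j ≤ m
  swap
  · rw [if_neg h, if_neg h, if_neg fun h2 => h h2.2, if_neg fun h2 => h h2.2]
  rw [if_pos h, if_pos h]
  by_cases h2 : A * k < e * j
  · rw [if_pos ⟨h2, h⟩, if_pos ⟨h2, h⟩]
  · rw [if_neg fun h3 => h2 h3.1, if_neg fun h3 => h2 h3.1, sub_self,
      M2h.muJ_Ug_indep (fun _ => he) hg₁ hg₂ (lt_of_le_of_lt (Nat.sub_le _ _) hm) hj1
        (not_lt.1 h2), sub_self]

end YP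

end MPb07157
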