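import Pool.Agent.Lib.MP_b07157_agYP.Ser
import Pool.Agent.Lib.MP_b07157_agYP.Sl
import Pool.Agent.Lib.MP_b07157_agU.M3

/-!
# The stages with a simple root
-/

noncomputable section

namespace MPb07157

open MvPolynomial

namespace YP

open PC SU M3h

variable {r : ℕ}

/-- The arcs with `ord x = k` and `ζ ∈ B`. -/
def SB (N k : ℕ) (B : Set (Fin r × Fin N → ℂ)) : Set (JI r N → ℂ) :=
  {x | xyP x ∈ Start 2 1 N ∩ Xo N k ∧ zP x ∈ B}

theorem isConstr_SB {N : ℕ} (k : ℕ) {B : Set (Fin r × Fin N → ℂ)} (hB : IsConstr B) :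
    IsConstr (SB N k B) :=
  (isConstr_xyP isConstr_SX).inter (isConstr_zP hB)

theorem mem_SB_congr {N M k : ℕ} {B : Set (Fin r × Fin N → ℂ)} {h : M + 1 < N} {x y : JI r N → ℂ}
    (hxy : ∀ s, (∀ l : Fin (M + 1), s ≠ dd h l) → x s = y s) :
    x ∈ SB N k B ↔ y ∈ SB N k B := by
  have h0 := xyP_zero_of hxy
  have h1 : ∀ i : Fin N, (i : ℕ) < 1 → xyP x (1, i) = xyP y (1, i) := fun i hi =>
    xyP_one_of (j := 0) (fun s hs => hxy s fun l => hs l (Nat.zero_le _)) i (by omega)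
  have hz := zP_of hxy
  have h2 : xyP x ∈ Start 2 1 N ∩ Xo N k ↔ xyP y ∈ Start 2 1 N ∩ Xo N k := by
    have e1 : xyP x ∈ Start 2 1 N ↔ xyP y ∈ Start 2 1 N := by
      refine forall_congr' fun i => forall_congr' fun j => imp_congr_right fun hj => ?_
      fin_cases i
      · show xyP x (0, j) = 0 ↔ xyP y (0, j) = 0
        rw [h0]
      · show xyP x (1, j) = 0 ↔ xyP y (1, j) = 0
        rw [h1 j hj]
    have e2 : xyP x ∈ Xo N k ↔ xyP y ∈ Xo N k := by
      unfold Xo
      simp only [Set.mem_ofPred_eq, h0]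
    exact and_congr e1 e2
  show _ ∧ _ ↔ _ ∧ _
  rw [h2, hz]

theorem muJ_simpleB {F : P2} {A : ℕ} (hA : 1 ≤ A) (hF : YOrd F A 1) {e : Fin r → ℕ}
    (he : ∀ i, 0 < e i) {N m k : ℕ} (hk : 1 ≤ k) (hm : m < N) (hkm : A * k < m)
    {B : Set (Fin r × Fin N → ℂ)} (hB : IsConstr B) (hBR : B ⊆ Rg e N (A * k)) :
    muJ F e N m (Start 2 1 N ∩ Xo N k) B =
      P1aux.Lp (m - A * k) * clsM A1 * mJ N (SB N k B) := by
  obtain ⟨M, rfl⟩ : ∃ M, m = A * k + (M + 1) := ⟨m - A * k - 1, by omega⟩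
  have hkA : k ≤ A * k := Nat.le_mul_of_pos_left k hA
  have hAk : A ≤ A * k := Nat.le_mul_of_pos_right A hk
  have hMN : M + 1 < N := by omega
  obtain ⟨P, hP'⟩ := exists_trunc F (N - 1)
  have hP : ∀ v : Fin 2 →₀ ℕ, v 0 + v 1 < N → MvPowerSeries.coeff v F = P.coeff v := fun v hv =>
    (hP' v).resolve_right fun h => by omega
  have hP0 : ∀ v : Fin 2 →₀ ℕ, P.coeff v ≠ 0 → A ≤ v 0 := by
    intro v hv
    by_contra h
    apply hv
    have h1 : MvPowerSeries.coeff v F = 0 := by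
      have hvv : v = ex (v 0) (v 1) := VM.ext2 (VM.ex_zero _ _).symm (VM.ex_one _ _).symm
      rw [hvv]
      exact hF.1 _ (not_le.1 h) _
    rcases hP' v with h2 | h2
    · rw [← h2, h1]
    · exact h2.2
  have hPA : P.coeff (ex A 1) ≠ 0 := by
    rw [← hP _ (by rw [VM.ex_zero, VM.ex_one]; omega)]
    exact hF.2.2
  choose Q hQ using fun n : ℕ => exists_val_poly P e N n
  have htri := tri_cls (dd_injective (r := r) hMN) (S := SB N k B) (isConstr_SB k hB)
    (fun x y hxy => mem_SB_congr hxy) (fun j => Q (A * k + (1 + (j : ℕ))))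
    (fun x => P.coeff (ex A 1) * (xyP x (0, ⟨k, by omega⟩)) ^ A) (by
      intro x hx
      exact mul_ne_zero hPA (pow_ne_zero _ (hx.1.2.2 (by omega)))) (by
      intro x y hxy
      show _ * _ ^ A = _ * _ ^ A
      rw [xyP_zero_of hxy]) (by
      intro j x hx y hy hxy
      have h0 : ∀ i, xyP x (0, i) = xyP y (0, i) :=
        xyP_zero_of (fun s hs => hxy s fun l _ => hs l)
      have h1 := xyP_one_of (j := (j : ℕ)) (x := x) (y := y) (h := hMN)
        (fun s hs => hxy s fun l hl => hs l hl)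
      have hz : zP x = zP y := zP_of (fun s hs => hxy s fun l _ => hs l)
      have ha0 : arc (xyP x) 0 = arc (xyP y) 0 := by
        ext n
        rw [coeff_arc, coeff_arc]
        split_ifs with h
        · exact h0 _
        · rfl
      have hd : (PowerSeries.X : PowerSeries ℂ) ^ (1 + (j : ℕ)) ∣
          arc (xyP x) 1 - arc (xyP y) 1 := by
        rw [PowerSeries.X_pow_dvd_iff]
        intro n hn
        rw [map_sub, coeff_arc, coeff_arc]
        split_ifs with h
        · rw [h1 ⟨n, h⟩ hn, sub_self]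
        · rw [sub_self]
      have hdiff := coeff_diff (P := P) hP0 hk ha0 (X_pow_dvd_arc_zero hx.1)
        (X_dvd_arc_one hx.1) (X_dvd_arc_one hy.1) hd
      have hjN : 1 + (j : ℕ) < N := by
        have := j.2
        omega
      have c1 : PowerSeries.coeff k (arc (xyP x) 0) = xyP x (0, ⟨k, by omega⟩) := by
        rw [coeff_arc, dif_pos]
      have c2 : ∀ z : JI r N → ℂ, PowerSeries.coeff (1 + (j : ℕ)) (arc (xyP z) 1) =
          z (dd hMN j) := by
        intro z
        rw [coeff_arc, dif_pos hjN]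
        rfl
      rw [c1, c2, c2] at hdiff
      show eval x (Q _) - _ = eval y (Q _) - _
      rw [hQ, hQ, map_add, map_add, hz, ← h0]
      linear_combination hdiff) (isConstr_TT M)
  have hset : jset F e N (A * k + (M + 1)) (Start 2 1 N ∩ Xo N k) B =
      {x | x ∈ SB N k B ∧
        (fun j : Fin (M + 1) => eval x (Q (A * k + (1 + (j : ℕ))))) ∈ TT M} := by
    ext x
    have key : x ∈ SB N k B → ((val F e x).order = (A * k + (M + 1) : ℕ) ↔
        (fun j : Fin (M + 1) => eval x (Q (A * k + (1 + (j : ℕ))))) ∈ TT M) := by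
      intro hx
      have hd : (PowerSeries.X : PowerSeries ℂ) ^ (A * k + 1) ∣ val F e x :=
        dvd_add (valF_dvd hF hk hx.1) (dvd_of_mem_Rg he (by omega) (hBR hx.2))
      rw [PowerSeries.X_pow_dvd_iff] at hd
      have hc : ∀ n, n < N → eval x (Q n) = PowerSeries.coeff n (val F e x) := by
        intro n hn
        rw [hQ, coeff_val hP e hx.1.1 hn]
      rw [PowerSeries.order_eq_nat]
      constructor
      · rintro ⟨h1, h2⟩
        refine ⟨fun j hj => ?_, ?_⟩
        · show eval x (Q _) = 0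
          rw [hc _ (by omega)]
          exact h2 _ (by omega)
        · show eval x (Q _) ≠ 0
          rw [Fin.val_last, hc _ (by omega), add_comm 1 M]
          exact h1
      · rintro ⟨h1, h2⟩
        refine ⟨?_, fun i hi => ?_⟩
        · have h3 : eval x (Q (A * k + (1 + ((Fin.last M : Fin (M + 1)) : ℕ)))) ≠ 0 := h2
          rw [Fin.val_last, hc _ (by omega), add_comm 1 M] at h3
          exact h3
        · rcases lt_or_ge i (A * k + 1) with h3 | h3
          · exact hd i h3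
          · obtain ⟨j, rfl⟩ : ∃ j, i = A * k + (1 + j) := ⟨i - (A * k + 1), by omega⟩
            have h4 := h1 ⟨j, by omega⟩ (by show j < M; omega)
            have h5 : eval x (Q (A * k + (1 + j))) = 0 := h4
            rwa [hc _ (by omega)] at h5
    constructor
    · rintro ⟨h1, h2, h3⟩
      exact ⟨⟨h1, h2⟩, (key ⟨h1, h2⟩).1 h3⟩
    · rintro ⟨h1, h2⟩
      exact ⟨h1.1, h1.2, (key h1).2 h2⟩
  have hcl : clsM (jset F e N (A * k + (M + 1)) (Start 2 1 N ∩ Xo N k) B) =
      P1aux.Lp (M + 1) * (clsM (SB N k B) * clsM A1) := by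
    have h1 := congrArg (algebraMap K0 Mot) htri
    rw [← hset, map_mul, map_mul, map_pow, ← LU_val, ← Units.val_pow_eq_pow_val, cls_TT] at h1
    unfold clsM
    rw [← h1, ← mul_assoc]
    unfold P1aux.Lp
    rw [← Units.val_mul, ← zpow_natCast, ← zpow_add, neg_add_cancel, zpow_zero, Units.val_one,
      one_mul]
  unfold muJ mJ
  rw [hcl, show A * k + (M + 1) - A * k = M + 1 by omega]
  ring

variable {e D b : ℕ} {s₀ s₁ : ℚ}

theorem ZY_eq_cs2 {F : P2} {A : ℕ} (hA : 1 ≤ A) (hF : YOrd F A 1) (he : 0 < e) (hD : 0 < D)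
    (hb : 0 < b) {a : ℕ} (ha : 1 ≤ a) {K : ℕ} (hK : 1 ≤ K) :
    ZY F e D b a A K = cs2 (fun k j => A * k < e * j)
      (clsM A1 * clsM A1 * P1aux.Lp 3 * ((LU : Mot) - 1)) a b A D := by
  ext m
  rw [ZY, cs2, PowerSeries.coeff_mk, PowerSeries.coeff_mk]
  have hmK : m < K * (m + 1) := by
    have := Nat.le_mul_of_pos_left (m + 1) hK
    omega
  have hz : ∀ k j, 1 ≤ k → 1 ≤ j → m ≤ D * j + A * k →
      (if A * k < e * j ∧ D * j ≤ m then P1aux.Lp ((a - 1) * k + (b - 1) * j) *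
        muJ F (eo e) (K * (m + 1)) (m - D * j)
          (Start 2 1 (K * (m + 1)) ∩ Xo (K * (m + 1)) k)
          (Ug (eo e) (K * (m + 1)) (e * j)) else 0) = 0 := by
    intro k j hk hj hmk
    split_ifs with h
    · rw [muJ_eq_zero, mul_zero]
      intro γ hγ ζ hζ
      refine dvd_add ((pow_dvd_pow _ (by omega)).trans (valF_dvd hF hk hγ)) ?_
      refine dvd_of_mem_Rg (fun _ => he) (by omega) (Ug_subset_Rg _ _ (n := m - D * j) ?_ hζ)
      omega
    · rfl
  have hs : ∀ (G : ℕ → ℕ → Mot), (∀ k j, 1 ≤ k → 1 ≤ j → m ≤ D * j + A * k → G k j = 0) →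
      ∑ k ∈ Finset.Icc 1 (K * (m + 1)), ∑ j ∈ Finset.Icc 1 (K * (m + 1)), G k j =
        ∑ k ∈ Finset.Icc 1 m, ∑ j ∈ Finset.Icc 1 m, G k j := by
    intro G hG
    symm
    refine (Finset.sum_congr rfl fun k hk => ?_).trans
      (Finset.sum_subset (Finset.Icc_subset_Icc_right hmK.le) ?_)
    · refine Finset.sum_subset (Finset.Icc_subset_Icc_right hmK.le) fun j hj hj' => ?_
      rw [Finset.mem_Icc] at hk hj hj'
      have := Nat.le_mul_of_pos_left j hD
      exact hG k j hk.1 hj.1 (by omega)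
    · intro k hk hk'
      refine Finset.sum_eq_zero fun j hj => ?_
      rw [Finset.mem_Icc] at hk hk' hj
      have := Nat.le_mul_of_pos_left k hA
      exact hG k j hk.1 hj.1 (by omega)
  rw [hs _ hz]
  refine Finset.sum_congr rfl fun k hk => Finset.sum_congr rfl fun j hj => ?_
  have hk1 := (Finset.mem_Icc.1 hk).1
  have hj1 := (Finset.mem_Icc.1 hj).1
  by_cases h : A * k < e * j ∧ D * j + A * k < m
  · rw [if_pos ⟨h.1, by omega⟩, if_pos h,
      muJ_simpleB hA hF (fun _ => he) hk1 (by omega) (by omega) (isConstr_Ug _ _ _)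
        (Ug_subset_Rg _ _ h.1)]
    have hjN : j < K * (m + 1) := by
      have := (Finset.mem_Icc.1 hj).2
      omega
    have hkN : k < K * (m + 1) := by
      have := (Finset.mem_Icc.1 hk).2
      omega
    have hS : mJ (K * (m + 1)) (SB (K * (m + 1)) k (Ug (eo e) (K * (m + 1)) (e * j))) =
        P1aux.Lp (k + 2) * clsM A1 * (P1aux.Lp (j + 1) * ((LU : Mot) - 1)) := by
      rw [← muN_SX hk1 hkN, ← mJ_Ug he hjN isConstr_SX]
      rfl
    rw [hS]
    have h4 : P1aux.Lp ((a - 1) * k + (b - 1) * j) * (P1aux.Lp (m - D * j - A * k) *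
        (P1aux.Lp (k + 2) * P1aux.Lp (j + 1))) =
        P1aux.Lp 3 * P1aux.Lp (a * k + b * j + (m - (D * j + A * k))) := by
      rw [← P1aux.Lp_add, ← P1aux.Lp_add, ← P1aux.Lp_add, ← P1aux.Lp_add]
      congr 1
      obtain ⟨a, rfl⟩ : ∃ c, a = c + 1 := ⟨a - 1, by omega⟩
      obtain ⟨b, rfl⟩ : ∃ c, b = c + 1 := ⟨b - 1, by omega⟩
      rw [Nat.add_sub_cancel, Nat.add_sub_cancel, Nat.sub_sub]
      ring
    linear_combination (clsM A1 * clsM A1 * ((LU : Mot) - 1)) * h4
  · rw [if_neg h]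
    by_cases h2 : A * k < e * j
    · exact hz k j hk1 hj1 (by omega)
    · exact if_neg fun h3 => h2 h3.1

theorem ZY_simple {F : P2} {A : ℕ} (hA : 1 ≤ A) (hF : YOrd F A 1) (hP : Par e D b s₀ s₁)
    {a : ℕ} (ha : 1 ≤ a) {K : ℕ} (hK : 1 ≤ K) (h : (a : ℚ) ≠ -s₁ * A) :
    ZY F e D b a A K ∈ regularAt s₀ := by
  rw [ZY_eq_cs2 hA hF hP.he hP.hD hP.hb ha hK]
  exact cs2_lt_mem hP _ hA h

end YP

end MPb07157
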