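import Pool.Agent.Lib.MP_b07157_agYP.Md1
import Pool.Agent.Lib.MP_b07157_agYP.Md2
import Pool.Agent.Lib.MP_b07157_agYP.Sim
import Pool.Agent.Lib.MP_b07157_agU.M4

/-!
# The models
-/

noncomputable section

namespace MPb07157

open MvPolynomial

namespace YP

open PC SU

variable {e D b : ℕ} {s₀ s₁ : ℚ}

theorem ZY_model_mem {g : MvPolynomial (Fin 2) ℂ} (hg : g ≠ 0) (hP : Par e D b s₀ s₁)
    (hnd : ∀ a : Fin 2 → ℕ, (∀ j, 1 ≤ a j) → NondegAt g (face g a (nuf g a)))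
    {K : ℕ} (hK : 1 ≤ K) (hKs : -s₀ < K) {a A : ℕ} (ha : 1 ≤ a)
    (hA : (A = 0 ∧ a = 1) ∨ (1 ≤ A ∧ (a : ℚ) ≠ -s₁ * A))
    (hgA : ∀ v ∈ g.support, A ≤ v 0 ∧ v ≠ ex A 0)
    (hfac : ∀ (w : Fin 2 → ℕ) (N : ℕ), IsFacetWt g w N →
      ((a * w 0 + w 1 : ℕ) : ℚ) ≠ -s₁ * N) :
    ZY (g : P2) e D b a A K ∈ regularAt s₀ := by
  rcases hA with ⟨rfl, rfl⟩ | ⟨hA1, hA⟩
  · rw [ZY_zero g hP.he hP.hD b 1 hK]
    exact Zw_zg_mem hg hP hnd hK hKs le_rfl hfac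
  · obtain ⟨L, hL, hL2⟩ : ∃ L : ℕ, 1 ≤ L ∧ ((a + L : ℕ) : ℚ) ≠ -s₁ * (A + L : ℕ) := by
      by_contra hcon
      push Not at hcon
      have e1 := hcon 1 le_rfl
      have e2 := hcon 2 (by norm_num)
      push_cast at e1 e2
      have e3 : -s₁ = 1 := by linear_combination e1 - e2
      rw [e3] at e1 hA
      apply hA
      linarith
    have h2 := ZY_sub_eq (g₁ := g) (g₂ := M4.ref A L) hP.he hP.hD b hgA (fun v hv => by
      rcases M4.mem_support_ref.1 hv with rfl | rfl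
      · refine ⟨(M4.ex_zero A 1).ge, fun h => ?_⟩
        have := (M4.ex_inj h).2
        omega
      · refine ⟨by rw [M4.ex_zero]; omega, fun h => ?_⟩
        have := (M4.ex_inj h).1
        omega) a hK
    have h3 : ZY (g : P2) e D b a A K = Zw (zg g e D) 1 K (cwz a b) -
        Zw (zg (M4.ref A L) e D) 1 K (cwz a b) + ZY (M4.ref A L : P2) e D b a A K := by
      rw [← h2]
      ring
    rw [h3]
    refine add_mem (sub_mem (Zw_zg_mem hg hP hnd hK hKs ha hfac)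
      (Zw_zg_mem (M4.ref_ne_zero A L) hP (fun a _ => M4.ref_nondeg A L a) hK hKs ha
        fun w N hw => M4.ref_facet hA hL2 hw)) ?_
    exact ZY_simple hA1 (M4.ref_yOrd A hL) hP ha hK hA

end YP

end MPb07157
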