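import Pool.Agent.Lib.MP_b07157_agYP.Defs
import Pool.Agent.Lib.MP_b07157_agU.G1

/-!
# Series over cones
-/

noncomputable section

namespace MPb07157

open MvPolynomial

namespace YP

open PC SU

variable {e D b : ℕ} {s₀ s₁ : ℚ}

/-- A power series whose coefficients satisfy `c_{m + b} = L^{-a} c_m` for `m ≥ M`. -/
theorem mem_of_rec' {W : PowerSeries Mot} {s₀ : ℚ} {a b : ℕ} (hb : 0 < b) (M : ℕ)
    (hW : ∀ m, M ≤ m → PowerSeries.coeff (m + b) W = P1aux.Lp a * PowerSeries.coeff m W)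
    (h : (a : ℚ) ≠ -s₀ * b) : W ∈ regularAt s₀ := by
  have hbQ : (b : ℚ) ≠ 0 := by exact_mod_cast hb.ne'
  obtain ⟨G, hG⟩ : ∃ G : PowerSeries Mot,
      G * (1 - PowerSeries.C ((LU ^ (-(a : ℤ)) : Motˣ) : Mot) * PowerSeries.X ^ b) = 1 := by
    have h : IsUnit (1 - PowerSeries.C ((LU ^ (-(a : ℤ)) : Motˣ) : Mot) * PowerSeries.X ^ b :
        PowerSeries Mot) := by
      rw [PowerSeries.isUnit_iff_constantCoeff]
      simp [hb.ne']
    obtain ⟨v, hv⟩ := h
    exact ⟨↑v⁻¹, by rw [← hv, Units.inv_mul]⟩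
  have h1 : G ∈ regularAt s₀ :=
    Algebra.subset_adjoin (Or.inr ⟨a, b, hb, fun h2 => h (by
      rw [div_eq_iff hbQ] at h2
      exact_mod_cast h2), hG⟩)
  have h2 : W * (1 - PowerSeries.C ((LU ^ (-(a : ℤ)) : Motˣ) : Mot) * PowerSeries.X ^ b) =
      ∑ m ∈ Finset.range (M + b), PowerSeries.C (PowerSeries.coeff m (W * (1 -
        PowerSeries.C ((LU ^ (-(a : ℤ)) : Motˣ) : Mot) * PowerSeries.X ^ b))) *
          PowerSeries.X ^ m := by
    ext m
    rw [map_sum]
    have e2 : ∀ j ∈ Finset.range (M + b), PowerSeries.coeff m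
        (PowerSeries.C (PowerSeries.coeff j (W * (1 -
        PowerSeries.C ((LU ^ (-(a : ℤ)) : Motˣ) : Mot) * PowerSeries.X ^ b))) *
          PowerSeries.X ^ j) =
        if m = j then PowerSeries.coeff m (W * (1 -
        PowerSeries.C ((LU ^ (-(a : ℤ)) : Motˣ) : Mot) * PowerSeries.X ^ b)) else 0 := by
      intro j _
      rw [PowerSeries.coeff_C_mul, PowerSeries.coeff_X_pow]
      by_cases hj : m = j
      · rw [if_pos hj, if_pos hj, mul_one, hj]
      · rw [if_neg hj, if_neg hj, mul_zero]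
    rw [Finset.sum_congr rfl e2, Finset.sum_ite_eq]
    by_cases hm : m < M + b
    · rw [if_pos (Finset.mem_range.2 hm)]
    · rw [if_neg (by rw [Finset.mem_range]; omega)]
      have e1 : W * (1 - PowerSeries.C ((LU ^ (-(a : ℤ)) : Motˣ) : Mot) * PowerSeries.X ^ b) =
          W - PowerSeries.C ((LU ^ (-(a : ℤ)) : Motˣ) : Mot) * (W * PowerSeries.X ^ b) := by ring
      rw [e1, map_sub, PowerSeries.coeff_C_mul, PowerSeries.coeff_mul_X_pow', if_pos (by omega),
        sub_eq_zero]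
      have e3 := hW (m - b) (by omega)
      rw [Nat.sub_add_cancel (by omega)] at e3
      exact e3
  have h3 : W = (∑ m ∈ Finset.range (M + b), PowerSeries.C (PowerSeries.coeff m (W * (1 -
        PowerSeries.C ((LU ^ (-(a : ℤ)) : Motˣ) : Mot) * PowerSeries.X ^ b))) *
          PowerSeries.X ^ m) * G := by
    rw [← h2, mul_assoc, mul_comm _ G, hG, mul_one]
  rw [h3]
  exact mul_mem (sum_mem fun m _ => mul_mem (C_mem_regularAt s₀ _)
    (pow_mem (X_mem_regularAt s₀) m)) h1

/-- `∑_{k ≥ 1} w_k T^{u_k}`. -/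
def sk (u : ℕ → ℕ) (w : ℕ → Mot) : PowerSeries Mot :=
  PowerSeries.mk fun m => ∑ k ∈ Finset.Icc 1 m, if u k = m then w k else 0

theorem sk_mem {u : ℕ → ℕ} {w : ℕ → Mot} {e a b : ℕ} (hb : 0 < b)
    (hu : ∀ k, 1 ≤ k → k ≤ u k) (hu' : ∀ k, 1 ≤ k → u (k + e) = u k + b)
    (hw : ∀ k, 1 ≤ k → w (k + e) = P1aux.Lp a * w k) (h : (a : ℚ) ≠ -s₀ * b) :
    sk u w ∈ regularAt s₀ := by
  refine mem_of_rec' hb (∑ k ∈ Finset.Icc 1 e, u k + 1) (fun m hm => ?_) h
  simp only [sk, PowerSeries.coeff_mk]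
  rw [← Finset.sum_filter, ← Finset.sum_filter, Finset.mul_sum]
  symm
  refine Finset.sum_nbij' (fun k => k + e) (fun k => k - e) ?_ ?_ ?_ ?_ ?_
  · intro k hk
    rw [Finset.mem_filter, Finset.mem_Icc] at hk ⊢
    obtain ⟨⟨h1, h2⟩, h3⟩ := hk
    have h4 := hu' k h1
    have h5 := hu (k + e) (by omega)
    exact ⟨⟨by omega, by omega⟩, by omega⟩
  · intro k hk
    rw [Finset.mem_filter, Finset.mem_Icc] at hk ⊢
    obtain ⟨⟨h1, h2⟩, h3⟩ := hk
    have h6 : e < k := by
      by_contra h7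
      have h8 : u k ≤ ∑ k ∈ Finset.Icc 1 e, u k :=
        Finset.single_le_sum (f := u) (fun _ _ => Nat.zero_le _)
          (Finset.mem_Icc.2 ⟨h1, by omega⟩)
      omega
    have h4 := hu' (k - e) (by omega)
    have h5 := hu (k - e) (by omega)
    rw [Nat.sub_add_cancel h6.le] at h4
    exact ⟨⟨by omega, by omega⟩, by omega⟩
  · intro k _
    show k + e - e = k
    omega
  · intro k hk
    rw [Finset.mem_filter, Finset.mem_Icc] at hk
    obtain ⟨⟨h1, h2⟩, h3⟩ := hk
    have h6 : e < k := by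
      by_contra h7
      have h8 : u k ≤ ∑ k ∈ Finset.Icc 1 e, u k :=
        Finset.single_le_sum (f := u) (fun _ _ => Nat.zero_le _)
          (Finset.mem_Icc.2 ⟨h1, by omega⟩)
      omega
    show k - e + e = k
    omega
  · intro k hk
    rw [Finset.mem_filter, Finset.mem_Icc] at hk
    exact (hw k hk.1.1).symm

theorem cond (hP : Par e D b s₀ s₁) {ν E : ℕ} (h : (ν : ℚ) ≠ -s₁ * E) :
    ((ν * e + b * E : ℕ) : ℚ) ≠ -s₀ * ((D + e) * E : ℕ) := by
  intro h1
  apply h
  have he : (e : ℚ) ≠ 0 := by exact_mod_cast hP.he.ne'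
  have hs := hP.hs
  push_cast at h1
  apply mul_left_cancel₀ he
  linear_combination h1 + E * hs

theorem div_shift {e : ℕ} (he : 0 < e) (E k : ℕ) : E * (k + e) / e = E * k / e + E := by
  rw [mul_add, Nat.add_mul_div_right _ _ he]

theorem cs_eq_eq (he : 0 < e) (hD : 0 < D) (f : Mot) {ν E : ℕ} (hE : 0 < E) :
    cs (fun k j => e * j = E * k) f ν b E D = sk (fun k => D * (E * k / e) + E * k)
      (fun k => if e ∣ E * k then f * P1aux.Lp (ν * k + b * (E * k / e)) else 0) := by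
  ext m
  simp only [cs, sk, PowerSeries.coeff_mk]
  refine Finset.sum_congr rfl fun k hk => ?_
  rw [Finset.mem_Icc] at hk
  by_cases h1 : e ∣ E * k
  · have hd := h1
    obtain ⟨j₀, hj₀⟩ := h1
    have hj : E * k / e = j₀ := by rw [hj₀, Nat.mul_div_cancel_left _ he]
    rw [hj, if_pos hd]
    by_cases h2 : D * j₀ + E * k = m
    · rw [if_pos h2, Finset.sum_eq_single_of_mem j₀, if_pos ⟨hj₀.symm, h2⟩]
      · rw [Finset.mem_Icc]
        constructor
        · rcases Nat.eq_zero_or_pos j₀ with rfl | h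
          · have : 0 < E * k := Nat.mul_pos hE hk.1
            omega
          · exact h
        · nlinarith [Nat.zero_le (E * k)]
      · intro j _ hne
        rw [if_neg]
        rintro ⟨h3, -⟩
        exact hne (Nat.eq_of_mul_eq_mul_left he (by rw [h3, hj₀]))
    · rw [if_neg h2]
      refine Finset.sum_eq_zero fun j _ => if_neg ?_
      rintro ⟨h3, h4⟩
      apply h2
      rw [← Nat.eq_of_mul_eq_mul_left he (by rw [h3, hj₀] : e * j = e * j₀)]
      exact h4
  · rw [if_neg h1, ite_self]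
    refine Finset.sum_eq_zero fun j _ => if_neg ?_
    rintro ⟨h3, -⟩
    exact h1 ⟨j, h3.symm⟩

theorem cs_eq_mem (hP : Par e D b s₀ s₁) (f : Mot) {ν E : ℕ} (hE : 0 < E)
    (h : (ν : ℚ) ≠ -s₁ * E) : cs (fun k j => e * j = E * k) f ν b E D ∈ regularAt s₀ := by
  have he := hP.he
  rw [cs_eq_eq he hP.hD f hE]
  refine sk_mem (e := e) (a := ν * e + b * E) (b := (D + e) * E)
    (Nat.mul_pos (by omega) hE) ?_ ?_ ?_ (cond hP h)
  · intro k _
    nlinarith [Nat.zero_le (D * (E * k / e))]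
  · intro k _
    simp only [div_shift he]
    ring
  · intro k _
    have h1 : e ∣ E * (k + e) ↔ e ∣ E * k := by
      rw [mul_add]
      exact Nat.dvd_add_left (dvd_mul_left e E)
    simp only [div_shift he]
    by_cases h2 : e ∣ E * k
    · rw [if_pos h2, if_pos (h1.2 h2), show ν * (k + e) + b * (E * k / e + E) =
        (ν * e + b * E) + (ν * k + b * (E * k / e)) by ring, P1aux.Lp_add]
      ring
    · rw [if_neg h2, if_neg fun h => h2 (h1.1 h), mul_zero]

theorem coeff_geo (hD : 0 < D) (b q : ℕ) : PowerSeries.coeff q (1 + geo b D) =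
    if D ∣ q then P1aux.Lp (b * (q / D)) else 0 := by
  rw [geo_eq_geoK b hD, map_add]
  unfold geoK
  rw [PowerSeries.coeff_mk, PowerSeries.coeff_one]
  by_cases hq : q = 0
  · subst hq
    simp [P1aux.Lp]
  · rw [if_neg hq, zero_add]
    by_cases h : D ∣ q
    · rw [if_pos ⟨h, Nat.pos_of_ne_zero hq⟩, if_pos h, ← Units.val_pow_eq_pow_val,
        ← zpow_natCast, ← zpow_mul]
      unfold P1aux.Lp
      congr 2
      push_cast
      ring
    · rw [if_neg h, if_neg fun h' => h h'.1]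

theorem cs_lt_eq (he : 0 < e) (hD : 0 < D) (f : Mot) {ν E : ℕ} (hE : 0 < E) :
    cs (fun k j => E * k < e * j) f ν b E D = sk (fun k => D * (E * k / e + 1) + E * k)
      (fun k => f * P1aux.Lp (ν * k + b * (E * k / e + 1))) * (1 + geo b D) := by
  ext m
  rw [PowerSeries.coeff_mul]
  simp only [coeff_geo hD, cs, sk, PowerSeries.coeff_mk]
  have e2 : ∀ p ∈ Finset.HasAntidiagonal.antidiagonal m,
      (∑ k ∈ Finset.Icc 1 p.1, if D * (E * k / e + 1) + E * k = p.1 then
        f * P1aux.Lp (ν * k + b * (E * k / e + 1)) else 0) *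
        (if D ∣ p.2 then P1aux.Lp (b * (p.2 / D)) else 0) =
      ∑ k ∈ Finset.Icc 1 m, if D * (E * k / e + 1) + E * k = p.1 ∧ D ∣ p.2 then
        f * P1aux.Lp (ν * k + b * (E * k / e + 1) + b * (p.2 / D)) else 0 := by
    intro p hp
    have hp' := Finset.HasAntidiagonal.mem_antidiagonal.1 hp
    have e3 : (∑ k ∈ Finset.Icc 1 p.1, if D * (E * k / e + 1) + E * k = p.1 then
        f * P1aux.Lp (ν * k + b * (E * k / e + 1)) else 0) =
        ∑ k ∈ Finset.Icc 1 m, if D * (E * k / e + 1) + E * k = p.1 then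
        f * P1aux.Lp (ν * k + b * (E * k / e + 1)) else 0 := by
      refine Finset.sum_subset (Finset.Icc_subset_Icc le_rfl (by omega)) fun k hk hk' => ?_
      rw [if_neg]
      intro h
      apply hk'
      rw [Finset.mem_Icc] at hk ⊢
      refine ⟨hk.1, ?_⟩
      nlinarith [Nat.zero_le (D * (E * k / e + 1))]
    rw [e3, Finset.sum_mul]
    refine Finset.sum_congr rfl fun k _ => ?_
    by_cases h1 : D * (E * k / e + 1) + E * k = p.1
    · by_cases h2 : D ∣ p.2
      · rw [if_pos h1, if_pos h2, if_pos ⟨h1, h2⟩, P1aux.Lp_add (ν * k + b * (E * k / e + 1)),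
          mul_assoc]
      · rw [if_neg h2, mul_zero, if_neg fun h => h2 h.2]
    · rw [if_neg h1, zero_mul, if_neg fun h => h1 h.1]
  rw [Finset.sum_congr rfl e2, Finset.sum_comm (s := Finset.HasAntidiagonal.antidiagonal m)]
  refine Finset.sum_congr rfl fun k hk => ?_
  rw [Finset.mem_Icc] at hk
  by_cases h1 : D * (E * k / e + 1) + E * k ≤ m ∧ D ∣ m - (D * (E * k / e + 1) + E * k)
  · obtain ⟨h1, i, hi⟩ := h1
    have hlt : E * k < e * (E * k / e + 1 + i) := by
      have := Nat.lt_mul_div_succ (E * k) he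
      nlinarith [Nat.zero_le (e * i)]
    have hm : D * (E * k / e + 1 + i) + E * k = m := by
      rw [mul_add D (E * k / e + 1) i]
      omega
    rw [Finset.sum_eq_single_of_mem (E * k / e + 1 + i), if_pos ⟨hlt, hm⟩,
      Finset.sum_eq_single_of_mem (D * (E * k / e + 1) + E * k,
        m - (D * (E * k / e + 1) + E * k)) (Finset.HasAntidiagonal.mem_antidiagonal.2
          (by show D * (E * k / e + 1) + E * k + (m - (D * (E * k / e + 1) + E * k)) = m; omega)),
      if_pos ⟨rfl, ⟨i, hi⟩⟩]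
    · show _ = f * P1aux.Lp (ν * k + b * (E * k / e + 1) +
        b * ((m - (D * (E * k / e + 1) + E * k)) / D))
      rw [hi, Nat.mul_div_cancel_left _ hD]
      congr 2
      ring
    · rintro ⟨p, q⟩ hp hne
      rw [if_neg]
      rintro ⟨h3, -⟩
      have hp' := Finset.HasAntidiagonal.mem_antidiagonal.1 hp
      apply hne
      simp only at h3 hp'
      rw [← h3]
      congr 1
      omega
    · rw [Finset.mem_Icc]
      constructor
      · exact (Nat.le_add_left 1 _).trans (Nat.le_add_right _ _)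
      · nlinarith [Nat.zero_le (E * k)]
    · intro j _ hne
      rw [if_neg]
      rintro ⟨-, h4⟩
      apply hne
      exact Nat.eq_of_mul_eq_mul_left hD (by omega)
  · rw [Finset.sum_eq_zero, Finset.sum_eq_zero]
    · rintro ⟨p, q⟩ hp
      rw [if_neg]
      rintro ⟨h3, h4⟩
      have hp' := Finset.HasAntidiagonal.mem_antidiagonal.1 hp
      simp only at h3 h4 hp'
      apply h1
      refine ⟨by omega, ?_⟩
      rw [h3, show m - p = q by omega]
      exact h4
    · intro j hj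
      rw [if_neg]
      rintro ⟨h3, h4⟩
      apply h1
      have h5 : E * k / e < j := (Nat.div_lt_iff_lt_mul he).2 (by rw [mul_comm j e]; exact h3)
      obtain ⟨i, rfl⟩ := Nat.exists_eq_add_of_lt h5
      have h6 : m - (D * (E * k / e + 1) + E * k) = D * i := by
        have : D * (E * k / e + i + 1) = D * (E * k / e + 1) + D * i := by ring
        omega
      refine ⟨?_, ⟨i, h6⟩⟩
      have : D * (E * k / e + i + 1) = D * (E * k / e + 1) + D * i := by ring
      omega

theorem cs_lt_mem (hP : Par e D b s₀ s₁) (f : Mot) {ν E : ℕ} (hE : 0 < E)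
    (h : (ν : ℚ) ≠ -s₁ * E) : cs (fun k j => E * k < e * j) f ν b E D ∈ regularAt s₀ := by
  have he := hP.he
  rw [cs_lt_eq he hP.hD f hE]
  refine mul_mem ?_ (add_mem (one_mem _) (geo_mem hP.hD hP.hbD))
  refine sk_mem (e := e) (a := ν * e + b * E) (b := (D + e) * E)
    (Nat.mul_pos (by omega) hE) ?_ ?_ ?_ (cond hP h)
  · intro k _
    nlinarith [Nat.zero_le (D * (E * k / e + 1))]
  · intro k _
    simp only [div_shift he]
    ring
  · intro k _
    simp only [div_shift he]
    rw [show ν * (k + e) + b * (E * k / e + E + 1) =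
        (ν * e + b * E) + (ν * k + b * (E * k / e + 1)) by ring, P1aux.Lp_add]
    ring

theorem cs2_eq (c : ℕ → ℕ → Prop) [∀ k j, Decidable (c k j)] (f : Mot) (ν : ℕ) {b E D : ℕ}
    (hE : 0 < E) (hD : 0 < D) : cs2 c f ν b E D = cs c f ν b E D * geo 1 1 := by
  ext m
  rw [PowerSeries.coeff_mul, cs2, PowerSeries.coeff_mk]
  have e1 : ∀ j : ℕ, PowerSeries.coeff j (geo 1 1) = if 0 < j then P1aux.Lp j else 0 := by
    intro j
    rw [geo_eq_geoK 1 one_pos]
    unfold geoK
    rw [PowerSeries.coeff_mk]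
    by_cases hj : 0 < j
    · rw [if_pos ⟨one_dvd j, hj⟩, if_pos hj, Nat.div_one, ← Units.val_pow_eq_pow_val,
        ← zpow_natCast, ← zpow_mul]
      unfold P1aux.Lp
      congr 2
      push_cast
      ring
    · rw [if_neg hj, if_neg fun h => hj h.2]
  have e2 : ∀ i : ℕ, i ≤ m → PowerSeries.coeff i (cs c f ν b E D) = ∑ k ∈ Finset.Icc 1 m,
      ∑ j ∈ Finset.Icc 1 m,
      if c k j ∧ D * j + E * k = i then f * P1aux.Lp (ν * k + b * j) else 0 := by
    intro i hi
    rw [cs, PowerSeries.coeff_mk]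
    refine (Finset.sum_subset (Finset.Icc_subset_Icc le_rfl hi) fun k hk hk' => ?_).trans
      (Finset.sum_congr rfl fun k _ =>
        Finset.sum_subset (Finset.Icc_subset_Icc le_rfl hi) fun j hj hj' => ?_)
    · refine Finset.sum_eq_zero fun j _ => ?_
      rw [if_neg]
      rintro ⟨-, h3⟩
      apply hk'
      rw [Finset.mem_Icc] at hk ⊢
      exact ⟨hk.1, by nlinarith [Nat.zero_le (D * j)]⟩
    · rw [if_neg]
      rintro ⟨-, h3⟩
      apply hj'
      rw [Finset.mem_Icc] at hj ⊢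
      exact ⟨hj.1, by nlinarith [Nat.zero_le (E * k)]⟩
  have e3 : ∀ p ∈ Finset.HasAntidiagonal.antidiagonal m,
      PowerSeries.coeff p.1 (cs c f ν b E D) * PowerSeries.coeff p.2 (geo 1 1) =
      ∑ k ∈ Finset.Icc 1 m, ∑ j ∈ Finset.Icc 1 m,
        if (c k j ∧ D * j + E * k = p.1) ∧ 0 < p.2 then
          f * P1aux.Lp (ν * k + b * j + p.2) else 0 := by
    intro p hp
    have hp' := Finset.HasAntidiagonal.mem_antidiagonal.1 hp
    rw [e1, e2 p.1 (by omega), Finset.sum_mul]
    refine Finset.sum_congr rfl fun k _ => ?_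
    rw [Finset.sum_mul]
    refine Finset.sum_congr rfl fun j _ => ?_
    by_cases h1 : c k j ∧ D * j + E * k = p.1
    · by_cases h2 : 0 < p.2
      · rw [if_pos h1, if_pos h2, if_pos ⟨h1, h2⟩, P1aux.Lp_add (ν * k + b * j), mul_assoc]
      · rw [if_neg h2, mul_zero, if_neg fun h => h2 h.2]
    · rw [if_neg h1, zero_mul, if_neg fun h => h1 h.1]
  rw [Finset.sum_congr rfl e3, Finset.sum_comm (s := Finset.HasAntidiagonal.antidiagonal m)]
  refine Finset.sum_congr rfl fun k _ => ?_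
  rw [Finset.sum_comm (s := Finset.HasAntidiagonal.antidiagonal m)]
  refine Finset.sum_congr rfl fun j _ => ?_
  split_ifs with h
  · rw [Finset.sum_eq_single_of_mem (D * j + E * k, m - (D * j + E * k))
      (Finset.HasAntidiagonal.mem_antidiagonal.2 (by
        show D * j + E * k + (m - (D * j + E * k)) = m
        omega))]
    · rw [if_pos ⟨⟨h.1, rfl⟩, by show 0 < m - (D * j + E * k); omega⟩]
    · rintro ⟨p, q⟩ hp hne
      rw [if_neg]
      rintro ⟨⟨-, h1⟩, h2⟩
      have hp' := Finset.HasAntidiagonal.mem_antidiagonal.1 hp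
      apply hne
      simp only at h1 h2 hp'
      rw [h1]
      congr 1
      omega
  · symm
    refine Finset.sum_eq_zero fun p hp => ?_
    rw [if_neg]
    rintro ⟨⟨h0, h1⟩, h2⟩
    have hp' := Finset.HasAntidiagonal.mem_antidiagonal.1 hp
    exact h ⟨h0, by omega⟩

theorem geo_one_mem (hP : Par e D b s₀ s₁) : geo 1 1 ∈ regularAt s₀ := by
  refine geo_mem one_pos ?_
  intro h2
  apply hP.h1
  push_cast at h2
  linarith

theorem cs2_eq_mem (hP : Par e D b s₀ s₁) (f : Mot) {ν E : ℕ} (hE : 0 < E)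
    (h : (ν : ℚ) ≠ -s₁ * E) : cs2 (fun k j => e * j = E * k) f ν b E D ∈ regularAt s₀ := by
  rw [cs2_eq _ f ν hE hP.hD]
  exact mul_mem (cs_eq_mem hP f hE h) (geo_one_mem hP)

theorem cs2_lt_mem (hP : Par e D b s₀ s₁) (f : Mot) {ν E : ℕ} (hE : 0 < E)
    (h : (ν : ℚ) ≠ -s₁ * E) : cs2 (fun k j => E * k < e * j) f ν b E D ∈ regularAt s₀ := by
  rw [cs2_eq _ f ν hE hP.hD]
  exact mul_mem (cs_lt_mem hP f hE h) (geo_one_mem hP)

end YP

end MPb07157
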